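import Pool.Agent.H.MP_f7abb8_nt.Cnt18.Main

/-!
# The number of nonunitary perfect numbers up to `x` is `O(x^(1/3+ε))`
-/

set_option autoImplicit false

namespace Pool.MP_f7abb8_nt.Cnt18

open Pool.MP_f7abb8_nt.NU ArithmeticFunction

theorem ll_le_rpow (η : ℝ) (hη : 0 < η) : ∃ C : ℝ, 1 ≤ C ∧ ∀ X : ℕ, 1 ≤ X →
    (ll X : ℝ) + 1 ≤ C * (X : ℝ) ^ η := by
  refine ⟨2 + 2 / η, by have : 0 < 2 / η := by positivity
                        linarith, ?_⟩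
  intro X hX
  have hX1 : (1 : ℝ) ≤ X := by exact_mod_cast hX
  have hXpos : (0 : ℝ) < X := by linarith
  have hXe : 1 ≤ (X : ℝ) ^ η := Real.one_le_rpow hX1 hη.le
  have h1 : ((Nat.log 2 X : ℕ) : ℝ) * Real.log 2 ≤ Real.log X := by
    have h2 : 2 ^ Nat.log 2 X ≤ X := Nat.pow_log_le_self 2 (by omega)
    have h3 : (2 : ℝ) ^ Nat.log 2 X ≤ X := by exact_mod_cast h2
    have h4 := Real.log_le_log (by positivity) h3
    rwa [Real.log_pow] at h4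
  have h2 : (1 : ℝ) / 2 ≤ Real.log 2 := by
    have := Real.log_two_gt_d9
    linarith
  have h3 : Real.log X ≤ (X : ℝ) ^ η / η := Real.log_le_rpow_div hXpos.le hη
  have h4 : ((Nat.log 2 X : ℕ) : ℝ) ≤ 2 * Real.log X := by
    have h5 : ((Nat.log 2 X : ℕ) : ℝ) * (1 / 2) ≤ ((Nat.log 2 X : ℕ) : ℝ) * Real.log 2 :=
      mul_le_mul_of_nonneg_left h2 (by positivity)
    linarith
  unfold ll
  push_cast
  calc ((Nat.log 2 X : ℕ) : ℝ) + 1 + 1 ≤ 2 * ((X : ℝ) ^ η / η) + 2 * (X : ℝ) ^ η := by linarith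
    _ = (2 + 2 / η) * (X : ℝ) ^ η := by ring

theorem NP_count (ε : ℝ) (hε : 0 < ε) : ∃ C : ℝ, 0 < C ∧ ∀ X : ℕ, 1 ≤ X →
    ((NP X).card : ℝ) ≤ C * (X : ℝ) ^ (1 / 3 + ε) := by
  set η : ℝ := ε / 7 with hη
  have hη0 : 0 < η := by rw [hη]; positivity
  obtain ⟨C1, hC1, h1⟩ := wirsing η hη0
  obtain ⟨C2, hC2, h2⟩ := pollack η hη0
  obtain ⟨C3, hC3, h3⟩ := radical_count η hη0
  obtain ⟨C4, hC4, h4⟩ := ll_le_rpow η hη0
  refine ⟨73 * (C1 ^ 2 * (C2 * C3 * C4) * 3 * C4 ^ 2), by positivity, ?_⟩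
  intro X hX
  have hX1 : (1 : ℝ) ≤ X := by exact_mod_cast hX
  have hXpos : (0 : ℝ) < X := by linarith
  set E : ℝ := (X : ℝ) ^ η with hE
  have hE1 : 1 ≤ E := Real.one_le_rpow hX1 hη0.le
  set D : ℝ := (X : ℝ) ^ ((1 : ℝ) / 3) with hD
  have hD1 : 1 ≤ D := Real.one_le_rpow hX1 (by norm_num)
  have hD3 : D ^ 3 = X := by
    rw [hD, ← Real.rpow_natCast, ← Real.rpow_mul hXpos.le]
    norm_num
  set V : ℕ := ⌈D⌉₊ + 1 with hV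
  have hDc : D ≤ (⌈D⌉₊ : ℝ) := Nat.le_ceil D
  have hDc2 : (⌈D⌉₊ : ℝ) < D + 1 := Nat.ceil_lt_add_one (by linarith)
  have hV2 : 2 ≤ V := by
    have : (1 : ℝ) ≤ (⌈D⌉₊ : ℝ) := hD1.trans hDc
    have : 1 ≤ ⌈D⌉₊ := by exact_mod_cast this
    omega
  have hVD : (V : ℝ) ≤ 3 * D := by
    rw [hV]
    push_cast
    linarith
  have hXV : X ≤ V ^ 3 := by
    have h5 : (X : ℝ) ≤ (V : ℝ) ^ 3 := by
      rw [← hD3]
      apply pow_le_pow_left₀ (by linarith)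
      rw [hV]
      push_cast
      linarith
    exact_mod_cast h5
  have hone : ∀ C : ℝ, 1 ≤ C → 1 ≤ ⌊C * E⌋₊ := by
    intro C hC
    rw [Nat.one_le_floor_iff]
    nlinarith
  have key := count_main X V ⌊C1 * E⌋₊ ⌊C2 * E⌋₊ ⌊C3 * E⌋₊ hX hV2 hXV (hone C1 hC1)
    (hone C2 hC2) (hone C3 hC3)
    (fun u v hv => Nat.le_floor (h1 X hX u v hv))
    (fun s hs hsX => Nat.le_floor (h2 X hX s hs hsX))
    (fun N hN hNX => Nat.le_floor (h3 X hX N hN hNX))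
  have f1 : (⌊C1 * E⌋₊ : ℝ) ≤ C1 * E := Nat.floor_le (by positivity)
  have f2 : (⌊C2 * E⌋₊ : ℝ) ≤ C2 * E := Nat.floor_le (by positivity)
  have f3 : (⌊C3 * E⌋₊ : ℝ) ≤ C3 * E := Nat.floor_le (by positivity)
  have f4 : (ll X : ℝ) + 1 ≤ C4 * E := h4 X hX
  have f5 : (ll X : ℝ) ≤ C4 * E := by linarith
  have key' : ((NP X).card : ℝ) ≤ 73 * ((⌊C1 * E⌋₊ : ℝ) ^ 2 *
      ((⌊C2 * E⌋₊ : ℝ) * (⌊C3 * E⌋₊ : ℝ) * ((ll X : ℝ) + 1)) * (V : ℝ) * (ll X : ℝ) ^ 2) := by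
    exact_mod_cast key
  have hfin : (X : ℝ) ^ (1 / 3 + ε) = D * E ^ 7 := by
    rw [hD, hE, ← Real.rpow_natCast, ← Real.rpow_mul hXpos.le, ← Real.rpow_add hXpos]
    congr 1
    rw [hη]
    push_cast
    ring
  rw [hfin]
  calc ((NP X).card : ℝ) ≤ _ := key'
    _ ≤ 73 * ((C1 * E) ^ 2 * ((C2 * E) * (C3 * E) * (C4 * E)) * (3 * D) * (C4 * E) ^ 2) := by
        gcongr
    _ = 73 * (C1 ^ 2 * (C2 * C3 * C4) * 3 * C4 ^ 2) * (D * E ^ 7) := by ring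

end Pool.MP_f7abb8_nt.Cnt18
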