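import Pool.Agent.H.MP_f7abb8_nt.Cnt18.Wirsing

/-!
# Full (powerful) numbers: counting, and the decomposition squarefree times full
-/

set_option autoImplicit false

namespace Pool.MP_f7abb8_nt.Cnt18

open Pool.MP_f7abb8_nt.NU ArithmeticFunction

/-- `u` is full (powerful): `p ∣ u` implies `p^2 ∣ u`. -/
def Full (u : ℕ) : Prop := ∀ p, p.Prime → p ∣ u → p ^ 2 ∣ u

theorem full_one : Full 1 := by
  intro p hp hpd
  exact absurd (Nat.dvd_one.1 hpd) hp.ne_one

theorem full_mul {a b : ℕ} (ha : Full a) (hb : Full b) : Full (a * b) := by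
  intro p hp hpd
  rcases (Nat.Prime.dvd_mul hp).1 hpd with h | h
  · exact (ha p hp h).mul_right b
  · exact (hb p hp h).mul_left a

theorem full_left {a b : ℕ} (hab : Nat.Coprime a b) (h : Full (a * b)) : Full a := by
  intro p hp hpd
  have h1 := h p hp (hpd.mul_right b)
  have h2 : Nat.Coprime (p ^ 2) b := by
    apply Nat.Coprime.pow_left
    exact Nat.Coprime.coprime_dvd_left hpd hab
  exact h2.dvd_of_dvd_mul_right h1

theorem full_right {a b : ℕ} (hab : Nat.Coprime a b) (h : Full (a * b)) : Full b := by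
  rw [mul_comm] at h
  exact full_left hab.symm h

theorem full_form {u : ℕ} (hu0 : 0 < u) (hu : Full u) : ∃ t c : ℕ, 0 < t ∧ 0 < c ∧
    u = t ^ 3 * c ^ 2 := by
  obtain ⟨a, b, hab, hsq⟩ := Nat.sq_mul_squarefree u
  have ha0 : 0 < a := by
    rcases Nat.eq_zero_or_pos a with h | h
    · rw [h, mul_zero] at hab; omega
    · exact h
  have hb0 : 0 < b := by
    rcases Nat.eq_zero_or_pos b with h | h
    · rw [h] at hab; simp at hab; omega
    · exact h
  have hdvd : a ∣ b := by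
    obtain ⟨h, hh⟩ := Nat.gcd_dvd_left a b
    have hh' : Squarefree (Nat.gcd a b * h) := by rw [← hh]; exact hsq
    have hcop := Nat.coprime_of_squarefree_mul hh'
    have h1 : h = 1 := by
      by_contra hne
      obtain ⟨p, hp, hph⟩ := Nat.exists_prime_and_dvd hne
      have hpa : p ∣ a := by rw [hh]; exact hph.mul_left _
      have hpu : p ^ 2 ∣ u := hu p hp (by rw [← hab]; exact hpa.mul_left _)
      by_cases hpb : p ∣ b
      · have h2 : p ∣ Nat.gcd a b := Nat.dvd_gcd hpa hpb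
        have h3 : p ∣ 1 := by
          rw [← hcop.gcd_eq_one]
          exact Nat.dvd_gcd h2 hph
        exact hp.ne_one (Nat.dvd_one.1 h3)
      · have h2 : Nat.Coprime (p ^ 2) (b ^ 2) :=
          Nat.Coprime.pow _ _ ((Nat.Prime.coprime_iff_not_dvd hp).2 hpb)
        rw [← hab] at hpu
        have h3 : p ^ 2 ∣ a := h2.dvd_of_dvd_mul_left hpu
        rw [pow_two] at h3
        exact hp.ne_one (Nat.isUnit_iff.1 (hsq p h3))
    rw [h1, mul_one] at hh
    rw [hh]
    exact Nat.gcd_dvd_right a b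
  obtain ⟨c, hc⟩ := hdvd
  have hc0 : 0 < c := by
    rcases Nat.eq_zero_or_pos c with h | h
    · rw [h, mul_zero] at hc; omega
    · exact h
  refine ⟨a, c, ha0, hc0, ?_⟩
  rw [← hab, hc]
  ring

open Classical in
/-- the full numbers up to `M`. -/
noncomputable def FL (M : ℕ) : Finset ℕ := (Finset.Icc 1 M).filter Full

theorem mem_FL {M u : ℕ} : u ∈ FL M ↔ (1 ≤ u ∧ u ≤ M) ∧ Full u := by
  unfold FL
  classical
  rw [Finset.mem_filter, Finset.mem_Icc]

theorem sum_three_half (n : ℕ) (hn : 1 ≤ n) :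
    ∑ t ∈ Finset.Icc 1 n, 1 / ((t : ℝ) * √(t : ℝ)) ≤ 3 - 2 / √(n : ℝ) := by
  induction n, hn using Nat.le_induction with
  | base => norm_num
  | succ n hn ih =>
    rw [Finset.sum_Icc_succ_top (by omega)]
    have hn0 : (0 : ℝ) < n := by exact_mod_cast hn
    set a := √(n : ℝ) with ha
    set b := √((n : ℝ) + 1) with hb
    have ha0 : 0 < a := Real.sqrt_pos.2 hn0
    have hb0 : 0 < b := Real.sqrt_pos.2 (by linarith)
    have ha2 : a ^ 2 = n := Real.sq_sqrt hn0.le
    have hb2 : b ^ 2 = n + 1 := Real.sq_sqrt (by linarith)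
    have hab : a ≤ b := Real.sqrt_le_sqrt (by linarith)
    have hba : (b - a) * (b + a) = 1 := by nlinarith
    push_cast
    rw [← hb, ← hb2]
    have key : 1 / (b ^ 2 * b) ≤ 2 / a - 2 / b := by
      rw [div_sub_div _ _ ha0.ne' hb0.ne', div_le_div_iff₀ (by positivity) (by positivity)]
      have h1 : a ≤ 2 * b ^ 2 * (b - a) := by
        have h2 : a = a * ((b - a) * (b + a)) := by rw [hba, mul_one]
        have h3 : 2 * b ^ 2 * (b - a) - a * ((b - a) * (b + a)) = (b - a) ^ 2 * (2 * b + a) := by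
          ring
        have h4 : 0 ≤ (b - a) ^ 2 * (2 * b + a) := by positivity
        linarith
      have h5 : a * b ≤ 2 * b ^ 2 * (b - a) * b := mul_le_mul_of_nonneg_right h1 hb0.le
      nlinarith
    linarith

theorem FL_card (M : ℕ) : ((FL M).card : ℝ) ≤ 3 * √(M : ℝ) := by
  classical
  rcases Nat.eq_zero_or_pos M with hM | hM
  · have h1 : FL M = ∅ := by
      rw [Finset.eq_empty_iff_forall_notMem]
      intro u hu
      have := (mem_FL.1 hu).1
      omega
    rw [h1]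
    simp
  · have hsub : FL M ⊆ (Finset.Icc 1 M).biUnion (fun t =>
        (Finset.Icc 1 (Nat.sqrt (M / t ^ 3))).image (fun c => t ^ 3 * c ^ 2)) := by
      intro u hu
      obtain ⟨⟨h1, h2⟩, h3⟩ := mem_FL.1 hu
      obtain ⟨t, c, ht, hc, huc⟩ := full_form h1 h3
      rw [Finset.mem_biUnion]
      have h4 : t ^ 3 * c ^ 2 ≤ M := by rw [← huc]; exact h2
      refine ⟨t, ?_, ?_⟩
      · rw [Finset.mem_Icc]
        refine ⟨ht, ?_⟩
        calc t ≤ t ^ 3 := Nat.le_self_pow (by norm_num) t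
          _ ≤ t ^ 3 * c ^ 2 := Nat.le_mul_of_pos_right _ (by positivity)
          _ ≤ M := h4
      · rw [Finset.mem_image]
        refine ⟨c, ?_, huc.symm⟩
        rw [Finset.mem_Icc]
        refine ⟨hc, ?_⟩
        rw [Nat.le_sqrt', Nat.le_div_iff_mul_le (by positivity)]
        rw [mul_comm]
        exact h4
    have h1 : (FL M).card ≤ ∑ t ∈ Finset.Icc 1 M, Nat.sqrt (M / t ^ 3) := by
      refine (Finset.card_le_card hsub).trans (Finset.card_biUnion_le.trans ?_)
      apply Finset.sum_le_sum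
      intro t _
      refine Finset.card_image_le.trans ?_
      rw [Nat.card_Icc]
      omega
    have h2 : ((FL M).card : ℝ) ≤ ∑ t ∈ Finset.Icc 1 M, ((Nat.sqrt (M / t ^ 3) : ℕ) : ℝ) := by
      exact_mod_cast h1
    refine h2.trans ?_
    have h3 : ∀ t ∈ Finset.Icc 1 M, ((Nat.sqrt (M / t ^ 3) : ℕ) : ℝ) ≤
        √(M : ℝ) * (1 / ((t : ℝ) * √(t : ℝ))) := by
      intro t ht
      rw [Finset.mem_Icc] at ht
      have ht0 : (0 : ℝ) < t := by exact_mod_cast ht.1
      have h4 : ((Nat.sqrt (M / t ^ 3) : ℕ) : ℝ) ≤ √((M / t ^ 3 : ℕ) : ℝ) :=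
        Real.nat_sqrt_le_real_sqrt
      have h5 : ((M / t ^ 3 : ℕ) : ℝ) ≤ (M : ℝ) / (t : ℝ) ^ 3 := by
        have := @Nat.cast_div_le ℝ _ _ _ M (t ^ 3)
        push_cast at this
        exact this
      have h6 : √((M : ℝ) / (t : ℝ) ^ 3) = √(M : ℝ) * (1 / ((t : ℝ) * √(t : ℝ))) := by
        rw [Real.sqrt_div (by positivity)]
        have h7 : √((t : ℝ) ^ 3) = t * √(t : ℝ) := by
          rw [show (t : ℝ) ^ 3 = (t : ℝ) ^ 2 * t by ring, Real.sqrt_mul (by positivity),
            Real.sqrt_sq ht0.le]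
        rw [h7]
        ring
      calc ((Nat.sqrt (M / t ^ 3) : ℕ) : ℝ) ≤ √((M / t ^ 3 : ℕ) : ℝ) := h4
        _ ≤ √((M : ℝ) / (t : ℝ) ^ 3) := Real.sqrt_le_sqrt h5
        _ = _ := h6
    calc ∑ t ∈ Finset.Icc 1 M, ((Nat.sqrt (M / t ^ 3) : ℕ) : ℝ)
        ≤ ∑ t ∈ Finset.Icc 1 M, √(M : ℝ) * (1 / ((t : ℝ) * √(t : ℝ))) := Finset.sum_le_sum h3
      _ = √(M : ℝ) * ∑ t ∈ Finset.Icc 1 M, 1 / ((t : ℝ) * √(t : ℝ)) := by rw [Finset.mul_sum]
      _ ≤ √(M : ℝ) * 3 := by
          apply mul_le_mul_of_nonneg_left _ (by positivity)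
          have h8 := sum_three_half M hM
          have h9 : 0 ≤ 2 / √(M : ℝ) := by positivity
          linarith
      _ = 3 * √(M : ℝ) := by ring

/-- every positive `n` is the product of coprime `a`, `b` with `a` squarefree and `b` full. -/
theorem exists_decomp (n : ℕ) (hn : 0 < n) : ∃ a b : ℕ, n = a * b ∧ 0 < a ∧ 0 < b ∧
    Squarefree a ∧ Full b ∧ Nat.Coprime a b := by
  induction n using Nat.recOnPosPrimePosCoprime with
  | prime_pow p k hp hk =>
    by_cases h1 : k = 1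
    · subst h1
      refine ⟨p, 1, by simp, hp.pos, one_pos, hp.squarefree, full_one, Nat.coprime_one_right p⟩
    · refine ⟨1, p ^ k, by simp, one_pos, pow_pos hp.pos k, squarefree_one, ?_,
        Nat.coprime_one_left _⟩
      intro q hq hqd
      have h2 : q = p := (Nat.prime_dvd_prime_iff_eq hq hp).1 (hq.dvd_of_dvd_pow hqd)
      rw [h2]
      exact pow_dvd_pow p (by omega)
  | zero => omega
  | one => exact ⟨1, 1, by simp, one_pos, one_pos, squarefree_one, full_one,
      Nat.coprime_one_left _⟩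
  | coprime x y hx hy hxy ihx ihy =>
    obtain ⟨a, b, h1, h2, h3, h4, h5, h6⟩ := ihx (by omega)
    obtain ⟨c, d, g1, g2, g3, g4, g5, g6⟩ := ihy (by omega)
    have hac : Nat.Coprime a c := Nat.Coprime.coprime_dvd_left ⟨b, h1⟩
      (Nat.Coprime.coprime_dvd_right ⟨d, g1⟩ hxy)
    have had : Nat.Coprime a d := Nat.Coprime.coprime_dvd_left ⟨b, h1⟩
      (Nat.Coprime.coprime_dvd_right ⟨c, by rw [g1]; ring⟩ hxy)
    have hbc : Nat.Coprime b c := Nat.Coprime.coprime_dvd_left ⟨a, by rw [h1]; ring⟩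
      (Nat.Coprime.coprime_dvd_right ⟨d, g1⟩ hxy)
    refine ⟨a * c, b * d, by rw [h1, g1]; ring, Nat.mul_pos h2 g2, Nat.mul_pos h3 g3, ?_,
      full_mul h5 g5, ?_⟩
    · exact (Nat.squarefree_mul hac).2 ⟨h4, g4⟩
    · apply Nat.Coprime.mul_left
      · exact Nat.Coprime.mul_right h6 had
      · exact Nat.Coprime.mul_right hbc.symm g6

end Pool.MP_f7abb8_nt.Cnt18
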