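import Pool.Agent.H.MP_f7abb8_nt.Cnt18.Pollack
import Pool.Agent.H.MP_e5d137_al.G3.SzTr

/-!
# The incidence bound for `σ(m)σ(v) - σ*(m)σ*(v) = m v`
-/

set_option autoImplicit false

namespace Pool.MP_f7abb8_nt.Cnt18

open Pool.MP_f7abb8_nt.NU ArithmeticFunction

/-- `σ(m)/m`. -/
def rho (m : ℕ) : ℚ := (sg m : ℚ) / (m : ℚ)

theorem us_pos {m : ℕ} (hm : 0 < m) : 0 < us m := by
  unfold us
  apply Finset.sum_pos
  · intro d hd
    rw [Finset.mem_filter] at hd
    exact Nat.pos_of_mem_divisors hd.1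
  · refine ⟨1, ?_⟩
    rw [Finset.mem_filter, Nat.mem_divisors]
    exact ⟨⟨one_dvd _, hm.ne'⟩, Nat.gcd_one_left _⟩

theorem rank_split (S : Finset ℕ) (f : ℕ → ℚ) (W : ℕ)
    (h : ∀ m ∈ S, (S.filter (fun m' => f m' = f m)).card ≤ W) :
    ∃ r : ℕ → ℕ, (∀ m ∈ S, r m < W) ∧ ∀ m ∈ S, ∀ m' ∈ S, r m = r m' → f m = f m' → m = m' := by
  classical
  refine ⟨fun m => (S.filter (fun m' => m' < m ∧ f m' = f m)).card, ?_, ?_⟩
  · intro m hm
    refine lt_of_lt_of_le (Finset.card_lt_card ?_) (h m hm)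
    rw [Finset.ssubset_iff_of_subset]
    · exact ⟨m, by simp [hm], by simp⟩
    · intro x hx
      rw [Finset.mem_filter] at hx ⊢
      exact ⟨hx.1, hx.2.2⟩
  · have key : ∀ m ∈ S, ∀ m' ∈ S, f m = f m' → m < m' →
        (S.filter (fun x => x < m ∧ f x = f m)).card <
          (S.filter (fun x => x < m' ∧ f x = f m')).card := by
      intro m hm m' hm' hf hlt
      apply Finset.card_lt_card
      rw [Finset.ssubset_iff_of_subset]
      · exact ⟨m, by simp [hm, hlt, hf], by simp⟩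
      · intro x hx
        rw [Finset.mem_filter] at hx ⊢
        exact ⟨hx.1, hx.2.1.trans hlt, hx.2.2.trans hf⟩
    intro m hm m' hm' hr hf
    rcases lt_trichotomy m m' with h1 | h1 | h1
    · exact absurd hr (key m hm m' hm' hf h1).ne
    · exact h1
    · exact absurd hr (key m' hm' m hm hf.symm h1).ne'

theorem st_wrap (X Y a b : ℕ → ℝ) (P L : Finset ℕ)
    (hX : ∀ u ∈ P, ∀ v ∈ P, X u = X v → u = v)
    (hL : ∀ x ∈ L, ∀ y ∈ L, a x = a y → b x = b y → x = y) :
    ∃ E : Finset (ℕ × ℕ), (∀ x : ℕ × ℕ, x.1 ∈ L → x.2 ∈ P → Y x.2 = a x.1 * X x.2 + b x.1 →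
      x ∈ E) ∧ (E.card ≤ L.card + 4 * P.card ∨ (E.card - L.card) ^ 3 ≤
        64 * P.card ^ 2 * L.card ^ 2) := by
  refine ⟨_, ?_, Pool.Agent.H.MP_e5d137_al.G3.szemeredi_trotter X Y a b P L hX hL⟩
  intro x h1 h2 h3
  rw [Finset.mem_filter, Finset.mem_product]
  exact ⟨⟨h1, h2⟩, h3⟩

theorem incid (W R : ℕ) (M P : Finset ℕ) (hM0 : ∀ m ∈ M, 0 < m) (hP0 : ∀ v ∈ P, 0 < v)
    (hM : ∀ m ∈ M, (M.filter (fun m' => rho m' = rho m)).card ≤ W)
    (hP : ∀ v ∈ P, (P.filter (fun v' => rho v' = rho v)).card ≤ W)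
    (h1 : M.card ≤ R) (h2 : P.card ≤ R) (h3 : (M.card * P.card) ^ 2 ≤ R ^ 3) :
    ((M ×ˢ P).filter (fun x => Nat.Coprime x.1 x.2 ∧ ns (x.1 * x.2) = x.1 * x.2)).card ≤
      W ^ 2 * (5 * R) := by
  classical
  obtain ⟨rM, hrM1, hrM2⟩ := rank_split M rho W hM
  obtain ⟨rP, hrP1, hrP2⟩ := rank_split P rho W hP
  have hclass : ∀ i j : ℕ, ∃ E : Finset (ℕ × ℕ), E.card ≤ 5 * R ∧
      ∀ x : ℕ × ℕ, x.1 ∈ M → x.2 ∈ P → rM x.1 = i → rP x.2 = j → Nat.Coprime x.1 x.2 →
        ns (x.1 * x.2) = x.1 * x.2 → x ∈ E := by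
    intro i j
    obtain ⟨E, hEm, hst⟩ := st_wrap
      (fun v : ℕ => (sg v : ℝ) / (v : ℝ)) (fun v : ℕ => (us v : ℝ) / (v : ℝ))
      (fun m : ℕ => (sg m : ℝ) / (us m : ℝ)) (fun m : ℕ => -((m : ℝ) / (us m : ℝ)))
      (P.filter (fun v => rP v = j)) (M.filter (fun m => rM m = i)) (by
        intro u hu v hv huv
        rw [Finset.mem_filter] at hu hv
        apply hrP2 u hu.1 v hv.1 (hu.2.trans hv.2.symm)
        have h4 : (sg u : ℝ) / (u : ℝ) = (sg v : ℝ) / (v : ℝ) := huv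
        unfold rho
        have h5 : (((sg u : ℚ) / (u : ℚ) : ℚ) : ℝ) = (((sg v : ℚ) / (v : ℚ) : ℚ) : ℝ) := by
          push_cast
          exact h4
        exact_mod_cast h5) (by
        intro x hx y hy hxy1 hxy2
        rw [Finset.mem_filter] at hx hy
        apply hrM2 x hx.1 y hy.1 (hx.2.trans hy.2.symm)
        have hx0 : (0 : ℝ) < x := by exact_mod_cast hM0 x hx.1
        have hy0 : (0 : ℝ) < y := by exact_mod_cast hM0 y hy.1
        have hux : (0 : ℝ) < us x := by exact_mod_cast us_pos (hM0 x hx.1)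
        have huy : (0 : ℝ) < us y := by exact_mod_cast us_pos (hM0 y hy.1)
        have h4 : (sg x : ℝ) / (us x : ℝ) = (sg y : ℝ) / (us y : ℝ) := hxy1
        have h5 : (x : ℝ) / (us x : ℝ) = (y : ℝ) / (us y : ℝ) := neg_injective hxy2
        have h6 : (sg x : ℝ) / (x : ℝ) = (sg y : ℝ) / (y : ℝ) := by
          have e1 : (sg x : ℝ) / (x : ℝ) = ((sg x : ℝ) / (us x : ℝ)) / ((x : ℝ) / (us x : ℝ)) := by
            field_simp
          have e2 : (sg y : ℝ) / (y : ℝ) = ((sg y : ℝ) / (us y : ℝ)) / ((y : ℝ) / (us y : ℝ)) := by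
            field_simp
          rw [e1, e2, h4, h5]
        unfold rho
        have h7 : (((sg x : ℚ) / (x : ℚ) : ℚ) : ℝ) = (((sg y : ℚ) / (y : ℚ) : ℚ) : ℝ) := by
          push_cast
          exact h6
        exact_mod_cast h7)
    refine ⟨E, ?_, ?_⟩
    · have hL : (M.filter (fun m => rM m = i)).card ≤ M.card := Finset.card_filter_le _ _
      have hQ : (P.filter (fun v => rP v = j)).card ≤ P.card := Finset.card_filter_le _ _
      rcases hst with h4 | h4
      · omega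
      · have h5 : 64 * (P.filter (fun v => rP v = j)).card ^ 2 *
            (M.filter (fun m => rM m = i)).card ^ 2 ≤ (4 * R) ^ 3 := by
          calc 64 * (P.filter (fun v => rP v = j)).card ^ 2 *
                (M.filter (fun m => rM m = i)).card ^ 2
              ≤ 64 * P.card ^ 2 * M.card ^ 2 := by
                apply Nat.mul_le_mul (Nat.mul_le_mul_left _ (Nat.pow_le_pow_left hQ 2))
                  (Nat.pow_le_pow_left hL 2)
            _ = 64 * (M.card * P.card) ^ 2 := by ring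
            _ ≤ 64 * R ^ 3 := Nat.mul_le_mul_left _ h3
            _ = (4 * R) ^ 3 := by ring
        have h6 := (Nat.pow_le_pow_iff_left (by norm_num)).1 (h4.trans h5)
        omega
    · intro x hxM hxP hi hj hcop hns
      apply hEm x (Finset.mem_filter.2 ⟨hxM, hi⟩) (Finset.mem_filter.2 ⟨hxP, hj⟩)
      have hx0 : (0 : ℝ) < x.2 := by exact_mod_cast hP0 _ hxP
      have hux : (0 : ℝ) < us x.1 := by exact_mod_cast us_pos (hM0 _ hxM)
      have h4 := sg_eq (x.1 * x.2) (mul_ne_zero (hM0 _ hxM).ne' (hP0 _ hxP).ne')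
      rw [sg_mul hcop, us_mul hcop, hns] at h4
      have h5 : (sg x.1 : ℝ) * sg x.2 = us x.1 * us x.2 + x.1 * x.2 := by exact_mod_cast h4
      field_simp
      linarith
  choose E hE1 hE2 using hclass
  have hsub : (M ×ˢ P).filter (fun x => Nat.Coprime x.1 x.2 ∧ ns (x.1 * x.2) = x.1 * x.2) ⊆
      (Finset.range W).biUnion (fun i => (Finset.range W).biUnion (fun j => E i j)) := by
    intro x hx
    rw [Finset.mem_filter, Finset.mem_product] at hx
    rw [Finset.mem_biUnion]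
    refine ⟨rM x.1, Finset.mem_range.2 (hrM1 _ hx.1.1), ?_⟩
    rw [Finset.mem_biUnion]
    exact ⟨rP x.2, Finset.mem_range.2 (hrP1 _ hx.1.2),
      hE2 _ _ x hx.1.1 hx.1.2 rfl rfl hx.2.1 hx.2.2⟩
  calc _ ≤ _ := Finset.card_le_card hsub
    _ ≤ ∑ i ∈ Finset.range W, ((Finset.range W).biUnion (fun j => E i j)).card :=
        Finset.card_biUnion_le
    _ ≤ ∑ i ∈ Finset.range W, ∑ j ∈ Finset.range W, 5 * R := by
        apply Finset.sum_le_sum
        intro i _
        refine Finset.card_biUnion_le.trans (Finset.sum_le_sum ?_)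
        intro j _
        exact hE1 i j
    _ = W ^ 2 * (5 * R) := by
        rw [Finset.sum_const, Finset.sum_const, Finset.card_range, smul_eq_mul, smul_eq_mul]
        ring

end Pool.MP_f7abb8_nt.Cnt18
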