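import Pool.Agent.H.MP_f7abb8_nt.Cnt18.Parts

/-!
# Counting nonunitary perfect numbers: the assembly
-/

set_option autoImplicit false

namespace Pool.MP_f7abb8_nt.Cnt18

open Pool.MP_f7abb8_nt.NU ArithmeticFunction

theorem split_pred (S : ℕ → Prop) (m : ℕ) (hm : 0 < m) : ∃ A B : ℕ, m = A * B ∧ 0 < A ∧ 0 < B ∧
    (∀ p, p.Prime → p ∣ A → S p) ∧ (∀ p, p.Prime → p ∣ B → ¬ S p) := by
  induction m using Nat.strong_induction_on with
  | _ m ih =>
    by_cases h1 : m = 1
    · refine ⟨1, 1, by rw [h1], one_pos, one_pos, ?_, ?_⟩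
      · intro p hp hpd
        exact absurd (Nat.dvd_one.1 hpd) hp.ne_one
      · intro p hp hpd
        exact absurd (Nat.dvd_one.1 hpd) hp.ne_one
    · set p := m.minFac with hpdef
      have hp : p.Prime := Nat.minFac_prime h1
      obtain ⟨c, hc⟩ : p ∣ m := Nat.minFac_dvd m
      have hc0 : 0 < c := by
        rcases Nat.eq_zero_or_pos c with h | h
        · rw [h, mul_zero] at hc; omega
        · exact h
      have hcm : c < m := by
        rw [hc]
        exact lt_mul_of_one_lt_left hc0 hp.one_lt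
      obtain ⟨A, B, h2, h3, h4, h5, h6⟩ := ih c hcm hc0
      by_cases hpy : S p
      · refine ⟨p * A, B, by rw [hc, h2]; ring, Nat.mul_pos hp.pos h3, h4, ?_, h6⟩
        intro q hq hqd
        rcases (Nat.Prime.dvd_mul hq).1 hqd with h | h
        · rw [(Nat.prime_dvd_prime_iff_eq hq hp).1 h]
          exact hpy
        · exact h5 q hq h
      · refine ⟨A, p * B, by rw [hc, h2]; ring, h3, Nat.mul_pos hp.pos h4, h5, ?_⟩
        intro q hq hqd
        rcases (Nat.Prime.dvd_mul hq).1 hqd with h | h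
        · rw [(Nat.prime_dvd_prime_iff_eq hq hp).1 h]
          exact hpy
        · exact h6 q hq h

theorem np_decomp {n X : ℕ} (h1 : 1 ≤ n) (h2 : n ≤ X) (hns : ns n = n) : ∃ s a b w : ℕ,
    n = a * b * w ∧ 0 < s ∧ s ≤ a ∧ s ≤ X ∧ a ∈ LP X s ∧ b ∈ RD X (sg a) ∧ Full b ∧ Full w ∧
    s ^ 2 ≤ a * b ∧ Nat.Coprime (a * b) w ∧ 0 < ns (b * w) ∧ ns (b * w) * sg a = (b * w) * a ∧
    0 < w ∧ Full (b * w) := by
  obtain ⟨a, B, hn, ha, hB, hsq, hfull, hcop⟩ := exists_decomp n h1
  have h3 : sg a * ns B = a * B := by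
    rw [hn, ns_mul hcop hsq hB.ne'] at hns
    exact hns
  have hnsB : 0 < ns B := by
    rcases Nat.eq_zero_or_pos (ns B) with h4 | h4
    · rw [h4, mul_zero] at h3
      have := Nat.mul_pos ha hB
      omega
    · exact h4
  have hg : 0 < Nat.gcd a (sg a) := Nat.gcd_pos_of_pos_left _ ha
  obtain ⟨s, r, hsr, hs, hr⟩ := Nat.exists_coprime a (sg a)
  set g := Nat.gcd a (sg a) with hgdef
  have hs0 : 0 < s := by
    rcases Nat.eq_zero_or_pos s with h4 | h4
    · rw [h4, zero_mul] at hs; omega
    · exact h4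
  have hr0 : 0 < r := by
    rcases Nat.eq_zero_or_pos r with h4 | h4
    · rw [h4, zero_mul] at hr
      have := sg_pos ha
      omega
    · exact h4
  have hsr' : s ≤ r := by
    have h4 : s * g ≤ r * g := by
      rw [← hs, ← hr]
      exact sg_ge ha.ne'
    exact Nat.le_of_mul_le_mul_right h4 hg
  have h4 : r * ns B = s * B := by
    apply Nat.eq_of_mul_eq_mul_right hg
    calc r * ns B * g = (r * g) * ns B := by ring
      _ = sg a * ns B := by rw [← hr]
      _ = a * B := h3
      _ = (s * g) * B := by rw [← hs]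
      _ = s * B * g := by ring
  have hrB : r ∣ B := by
    have h5 : r ∣ s * B := ⟨ns B, h4.symm⟩
    exact hsr.symm.dvd_of_dvd_mul_left h5
  obtain ⟨b, w, hbw, hb, hw, hbp, hwp⟩ := split_pred (fun p => p ∣ sg a) B hB
  have hcopbw : Nat.Coprime b w := coprime_of_primes (fun p hp h5 h6 => hwp p hp h6 (hbp p hp h5))
  have hrw : Nat.Coprime r w := by
    apply coprime_of_primes
    intro p hp h5 h6
    apply hwp p hp h6
    rw [hr]
    exact h5.mul_right g
  have hrb : r ∣ b := by
    rw [hbw] at hrB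
    exact hrw.dvd_of_dvd_mul_right hrB
  have hsa : s ≤ a := by
    rw [hs]
    exact Nat.le_mul_of_pos_right s hg
  have hbB : b ≤ B := Nat.le_of_dvd hB ⟨w, hbw⟩
  have hBX : B ≤ X := (Nat.le_of_dvd h1 ⟨a, by rw [hn]; ring⟩).trans h2
  have haX : a ≤ X := (Nat.le_of_dvd h1 ⟨B, hn⟩).trans h2
  rw [hbw] at hfull
  refine ⟨s, a, b, w, by rw [hn, hbw]; ring, hs0, hsa, hsa.trans haX, ?_, ?_,
    full_left hcopbw hfull, full_right hcopbw hfull, ?_, ?_, ?_, ?_, hw, hfull⟩
  · rw [mem_LP]
    refine ⟨⟨ha, haX⟩, hsq, ⟨r, ?_⟩⟩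
    calc s * sg a = s * (r * g) := by rw [← hr]
      _ = (s * g) * r := by ring
      _ = a * r := by rw [← hs]
  · rw [mem_RD]
    exact ⟨⟨hb, hbB.trans hBX⟩, hbp⟩
  · rw [pow_two]
    exact Nat.mul_le_mul hsa (hsr'.trans (Nat.le_of_dvd hb hrb))
  · apply Nat.Coprime.mul_left _ hcopbw
    exact Nat.Coprime.coprime_dvd_right ⟨b, by rw [hbw]; ring⟩ hcop
  · rw [← hbw]; exact hnsB
  · rw [← hbw, mul_comm, h3, mul_comm]

/-- nonunitary perfect numbers up to `X`. -/
def NP (X : ℕ) : Finset ℕ := (Finset.Icc 1 X).filter (fun n => ns n = n)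

open Classical in
/-- the numbers `a b ≤ X` of the structure theorem with `s ≤ V`. -/
noncomputable def LL (X V : ℕ) : Finset ℕ :=
  (Finset.Icc 1 X).filter (fun m => ∃ s a b, m = a * b ∧ 0 < s ∧ s ≤ X ∧ s ≤ V ∧ a ∈ LP X s ∧
    b ∈ RD X (sg a))

theorem mem_LL {X V m : ℕ} : m ∈ LL X V ↔ (1 ≤ m ∧ m ≤ X) ∧ ∃ s a b, m = a * b ∧ 0 < s ∧
    s ≤ X ∧ s ≤ V ∧ a ∈ LP X s ∧ b ∈ RD X (sg a) := by
  unfold LL
  classical
  rw [Finset.mem_filter, Finset.mem_Icc]

theorem LL_card (X V W Q : ℕ)
    (hW : ∀ s, 0 < s → s ≤ X → (LP X s).card ≤ W)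
    (hQ : ∀ N, 0 < N → N ≤ X ^ 2 → (RD X N).card ≤ Q) :
    (LL X V).card ≤ V * (W * Q) := by
  classical
  have hsub : LL X V ⊆ ((Finset.Icc 1 V).filter (fun s => s ≤ X)).biUnion (fun s =>
      (LP X s).biUnion (fun a => (RD X (sg a)).image (fun b => a * b))) := by
    intro m hm
    obtain ⟨h1, s, a, b, h3, h4, h5, h6, h7, h8⟩ := mem_LL.1 hm
    rw [Finset.mem_biUnion]
    refine ⟨s, Finset.mem_filter.2 ⟨Finset.mem_Icc.2 ⟨h4, h6⟩, h5⟩, ?_⟩
    rw [Finset.mem_biUnion]
    refine ⟨a, h7, ?_⟩
    rw [Finset.mem_image]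
    exact ⟨b, h8, h3.symm⟩
  refine (Finset.card_le_card hsub).trans (Finset.card_biUnion_le.trans ?_)
  calc _ ≤ ∑ s ∈ (Finset.Icc 1 V).filter (fun s => s ≤ X), W * Q := by
        apply Finset.sum_le_sum
        intro s hs
        rw [Finset.mem_filter, Finset.mem_Icc] at hs
        refine Finset.card_biUnion_le.trans ?_
        calc _ ≤ ∑ _a ∈ LP X s, Q := by
              apply Finset.sum_le_sum
              intro a ha
              obtain ⟨⟨ha1, ha2⟩, ha3, ha4⟩ := mem_LP.1 ha
              refine Finset.card_image_le.trans ?_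
              exact hQ _ (sg_pos ha1) ((sg_le_sq a).trans (Nat.pow_le_pow_left ha2 2))
          _ = (LP X s).card * Q := by rw [Finset.sum_const, smul_eq_mul]
          _ ≤ W * Q := Nat.mul_le_mul_right _ (hW s hs.1.1 hs.2)
    _ = ((Finset.Icc 1 V).filter (fun s => s ≤ X)).card * (W * Q) := by
        rw [Finset.sum_const, smul_eq_mul]
    _ ≤ V * (W * Q) := by
        apply Nat.mul_le_mul_right
        refine (Finset.card_filter_le _ _).trans ?_
        rw [Nat.card_Icc]
        omega

theorem fiber_le (X W : ℕ) (hW : ∀ u v, 0 < v → (WF X u v).card ≤ W) (S : Finset ℕ)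
    (hS : ∀ m ∈ S, 1 ≤ m ∧ m ≤ X) : ∀ m ∈ S, (S.filter (fun m' => rho m' = rho m)).card ≤ W := by
  intro m hm
  refine (Finset.card_le_card ?_).trans (hW (sg m) m (hS m hm).1)
  intro x hx
  rw [Finset.mem_filter] at hx
  rw [mem_WF]
  refine ⟨hS x hx.1, ?_⟩
  have h1 := hx.2
  unfold rho at h1
  have hx0 : (x : ℚ) ≠ 0 := by
    have := (hS x hx.1).1
    exact_mod_cast (show x ≠ 0 by omega)
  have hm0 : (m : ℚ) ≠ 0 := by
    have := (hS m hm).1
    exact_mod_cast (show m ≠ 0 by omega)
  rw [div_eq_div_iff hx0 hm0] at h1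
  have h2 : sg x * m = sg m * x := by exact_mod_cast h1
  rw [mul_comm, h2]

/-- the products `m v`, `m ∈ M`, `v ∈ P` coprime, that are nonunitary perfect. -/
def PR (M P : Finset ℕ) : Finset ℕ :=
  ((M ×ˢ P).filter (fun x => Nat.Coprime x.1 x.2 ∧ ns (x.1 * x.2) = x.1 * x.2)).image
    (fun x => x.1 * x.2)

theorem PR_card (X W R : ℕ) (hW : ∀ u v, 0 < v → (WF X u v).card ≤ W) (M P : Finset ℕ)
    (hM : ∀ m ∈ M, 1 ≤ m ∧ m ≤ X) (hP : ∀ m ∈ P, 1 ≤ m ∧ m ≤ X)
    (h1 : M.card ≤ R) (h2 : P.card ≤ R) (h3 : (M.card * P.card) ^ 2 ≤ R ^ 3) :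
    (PR M P).card ≤ W ^ 2 * (5 * R) := by
  unfold PR
  refine Finset.card_image_le.trans ?_
  exact incid W R M P (fun m hm => (hM m hm).1) (fun m hm => (hP m hm).1)
    (fiber_le X W hW M hM) (fiber_le X W hW P hP) h1 h2 h3

theorem mem_PR {M P : Finset ℕ} {m v : ℕ} (hm : m ∈ M) (hv : v ∈ P) (hcop : Nat.Coprime m v)
    (h : ns (m * v) = m * v) : m * v ∈ PR M P := by
  unfold PR
  rw [Finset.mem_image]
  refine ⟨(m, v), ?_, rfl⟩
  rw [Finset.mem_filter, Finset.mem_product]
  exact ⟨⟨hm, hv⟩, hcop, h⟩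

/-- case A. -/
def CA (X : ℕ) (F : Finset ℕ) : Finset ℕ :=
  F.biUnion (fun B => if 0 < ns B then (WF X B (ns B)).image (fun a => B * a) else ∅)

theorem CA_card (X W : ℕ) (hW : ∀ u v, 0 < v → (WF X u v).card ≤ W) (F : Finset ℕ) :
    (CA X F).card ≤ F.card * W := by
  unfold CA
  refine Finset.card_biUnion_le.trans ?_
  calc _ ≤ ∑ _B ∈ F, W := by
        apply Finset.sum_le_sum
        intro B _
        split_ifs with h
        · exact Finset.card_image_le.trans (hW _ _ h)
        · simp
    _ = F.card * W := by rw [Finset.sum_const, smul_eq_mul]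

theorem mem_CA {X : ℕ} {F : Finset ℕ} {B a : ℕ} (hB : B ∈ F) (h0 : 0 < ns B) (ha : 1 ≤ a)
    (haX : a ≤ X) (h : ns B * sg a = B * a) : B * a ∈ CA X F := by
  unfold CA
  rw [Finset.mem_biUnion]
  refine ⟨B, hB, ?_⟩
  rw [if_pos h0, Finset.mem_image]
  exact ⟨a, mem_WF.2 ⟨⟨ha, haX⟩, h⟩, rfl⟩

/-- case C, first part. -/
def CC (M : Finset ℕ) (l : ℕ) : Finset ℕ :=
  M.biUnion (fun m => ((ns m).primeFactors ×ˢ Finset.range l).image (fun q => m * q.1 ^ q.2))

theorem CC_card (M : Finset ℕ) (X : ℕ) (hM : ∀ m ∈ M, 1 ≤ m ∧ m ≤ X) :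
    (CC M (ll X)).card ≤ M.card * (2 * ll X * ll X) := by
  unfold CC
  refine Finset.card_biUnion_le.trans ?_
  calc _ ≤ ∑ _m ∈ M, 2 * ll X * ll X := by
        apply Finset.sum_le_sum
        intro m hm
        refine Finset.card_image_le.trans ?_
        rw [Finset.card_product, Finset.card_range]
        apply Nat.mul_le_mul_right
        rcases Nat.eq_zero_or_pos (ns m) with h | h
        · rw [h]
          simp
        · apply omega_two _ _ h
          have h1 := sg_eq m (by have := (hM m hm).1; omega)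
          have h2 := sg_le_sq m
          have h3 : m ^ 2 ≤ X ^ 2 := Nat.pow_le_pow_left (hM m hm).2 2
          omega
    _ = M.card * (2 * ll X * ll X) := by rw [Finset.sum_const, smul_eq_mul]

theorem count_main (X V W W' Q : ℕ) (hX : 1 ≤ X) (hV : 2 ≤ V) (hXV : X ≤ V ^ 3)
    (hW1 : 1 ≤ W) (hW'1 : 1 ≤ W') (hQ1 : 1 ≤ Q)
    (hW : ∀ u v, 0 < v → (WF X u v).card ≤ W)
    (hW' : ∀ s, 0 < s → s ≤ X → (LP X s).card ≤ W')
    (hQ : ∀ N, 0 < N → N ≤ X ^ 2 → (RD X N).card ≤ Q) :
    (NP X).card ≤ 73 * (W ^ 2 * (W' * Q * (ll X + 1)) * V * (ll X) ^ 2) := by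
  classical
  set l := ll X with hl
  set K := W' * Q * (l + 1) with hK
  have hl1 : 1 ≤ l := ll_pos X
  have hK1 : 1 ≤ K := by
    rw [hK]
    exact Nat.mul_pos (Nat.mul_pos hW'1 hQ1) (by omega)
  set R := 6 * K * V with hR
  -- the pieces
  set SA := CA X (FL (V ^ 2)) with hSA
  set SB := PR (LL X V) (FL (min X V)) with hSB
  set SC := CC (MM X (X / V)) l with hSC
  set SC' := CA X (((Finset.range (l + 3)) ×ˢ (Finset.range l)).image (fun q => q.1 ^ q.2))
    with hSC'
  set SD := (Finset.range l).biUnion (fun j => if 2 ^ j ≤ V then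
    PR (MM X (X / (2 ^ j * V))) (FL (min X (2 ^ (j + 1) * V))) else ∅) with hSD
  have hcover : NP X ⊆ SA ∪ SB ∪ SC ∪ SC' ∪ SD := by
    intro n hn
    unfold NP at hn
    rw [Finset.mem_filter, Finset.mem_Icc] at hn
    obtain ⟨⟨h1, h2⟩, hns⟩ := hn
    obtain ⟨s, a, b, w, e1, e2, e3, e4, e5, e6, e7, e8, e9, e10, e11, e12, e13, e14⟩ :=
      np_decomp h1 h2 hns
    have ha := (mem_LP.1 e5).1
    have hb := (mem_RD.1 e6).1
    have hab : 0 < a * b := Nat.mul_pos ha.1 hb.1
    have habX : a * b ≤ X := (Nat.le_of_dvd h1 ⟨w, e1⟩).trans h2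
    have hwX : w ≤ X := (Nat.le_of_dvd h1 ⟨a * b, by rw [e1]; ring⟩).trans h2
    rw [Finset.mem_union, Finset.mem_union, Finset.mem_union, Finset.mem_union]
    by_cases hsV : s ≤ V
    · by_cases hwV : w < V
      · -- case B
        left; left; left; right
        rw [e1]
        apply mem_PR _ _ e10 (by rw [← e1]; exact hns)
        · rw [mem_LL]
          exact ⟨⟨hab, habX⟩, s, a, b, rfl, e2, e4, hsV, e5, e6⟩
        · rw [mem_FL]
          exact ⟨⟨e13, le_min hwX hwV.le⟩, e8⟩
      · rw [not_lt] at hwV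
        by_cases hc : ∀ p e, p.Prime → p ^ e ∣ w → p ^ e < V
        · -- case D
          right
          obtain ⟨v, w', g1, g2, g3, g4⟩ := greedy V hV w hwV hc
          have hv0 : 0 < v := by omega
          have hw'0 : 0 < w' := by
            rcases Nat.eq_zero_or_pos w' with h | h
            · rw [h, mul_zero] at g1; omega
            · exact h
          have hnv : n = (a * b * w') * v := by rw [e1, g1]; ring
          have hvX : v ≤ X := (Nat.le_of_dvd h1 ⟨a * b * w', by rw [hnv]; ring⟩).trans h2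
          have hm0 : 0 < a * b * w' := Nat.mul_pos hab hw'0
          rw [g1] at e8
          have hfv := full_left g2 e8
          have hfw' := full_right g2 e8
          have hvV : v / V < V := by
            rw [Nat.div_lt_iff_lt_mul (by omega), ← pow_two]
            exact g4
          have hvV1 : 1 ≤ v / V := (Nat.one_le_div_iff (by omega)).2 g3
          set j := Nat.log 2 (v / V) with hj
          have hj1 : 2 ^ j ≤ v / V := Nat.pow_log_le_self 2 (by omega)
          have hj2 : v / V < 2 ^ (j + 1) := Nat.lt_pow_succ_log_self (by norm_num) _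
          have hj3 : 2 ^ j * V ≤ v := by
            calc 2 ^ j * V ≤ (v / V) * V := Nat.mul_le_mul_right _ hj1
              _ ≤ v := Nat.div_mul_le_self v V
          have hj4 : v < 2 ^ (j + 1) * V := by
            rwa [Nat.div_lt_iff_lt_mul (by omega)] at hj2
          have hj5 : j < l := by
            have h3 : 2 ^ j < 2 ^ l := by
              refine lt_of_le_of_lt ?_ (lt_two_pow_ll X)
              exact hj1.trans ((Nat.div_le_self v V).trans hvX)
            exact (Nat.pow_lt_pow_iff_right (by norm_num)).1 h3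
          rw [hSD, Finset.mem_biUnion]
          refine ⟨j, Finset.mem_range.2 hj5, ?_⟩
          rw [if_pos (by omega), hnv]
          apply mem_PR _ _ _ (by rw [← hnv]; exact hns)
          · rw [mem_MM]
            refine ⟨⟨hm0, ?_⟩, s, a, b, w', rfl, e2, e4, e5, e6, hfw', e9⟩
            rw [Nat.le_div_iff_mul_le (by positivity)]
            calc a * b * w' * (2 ^ j * V) ≤ a * b * w' * v := Nat.mul_le_mul_left _ hj3
              _ = n := hnv.symm
              _ ≤ X := h2
          · rw [mem_FL]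
            exact ⟨⟨hv0, le_min hvX hj4.le⟩, hfv⟩
          · apply Nat.Coprime.mul_left
            · exact Nat.Coprime.coprime_dvd_right ⟨w', g1⟩ e10
            · exact g2.symm
        · -- case C
          push Not at hc
          obtain ⟨P, e, hP, hPe, hPV⟩ := hc
          have hw0 : w ≠ 0 := by omega
          set f := w.factorization P with hf
          have hef : e ≤ f := (hP.pow_dvd_iff_le_factorization hw0).1 hPe
          have hfV : V ≤ P ^ f := hPV.trans (Nat.pow_le_pow_right hP.pos hef)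
          have hf0 : f ≠ 0 := by
            intro h0
            rw [h0, pow_zero] at hfV
            omega
          obtain ⟨k, hk⟩ := Nat.exists_eq_succ_of_ne_zero hf0
          have hwQ : P ^ f * (w / P ^ f) = w := Nat.ordProj_mul_ordCompl_eq_self w P
          set w' := w / P ^ f with hw'
          have hw'0 : 0 < w' := Nat.ordCompl_pos P hw0
          have hcopw : Nat.Coprime P w' := Nat.coprime_ordCompl hP hw0
          have hcopQ : Nat.Coprime (P ^ f) w' := Nat.Coprime.pow_left _ hcopw
          have hPw : P ∣ w := by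
            rw [← hwQ]
            exact (dvd_pow_self P hf0).mul_right _
          have hfw' : Full w' := by
            rw [← hwQ] at e8
            exact full_right hcopQ e8
          have hnm : n = (a * b * w') * P ^ f := by rw [e1, ← hwQ]; ring
          have hm0 : 0 < a * b * w' := Nat.mul_pos hab hw'0
          have hmX : a * b * w' ≤ X :=
            (Nat.le_of_dvd h1 ⟨P ^ f, hnm⟩).trans h2
          have hcopm : Nat.Coprime (a * b * w') P := by
            apply Nat.Coprime.mul_left
            · exact Nat.Coprime.coprime_dvd_right hPw e10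
            · exact hcopw.symm
          have hfl : f < l := by
            have h3 : 2 ^ f < 2 ^ l := by
              refine lt_of_le_of_lt ?_ (lt_two_pow_ll X)
              calc 2 ^ f ≤ P ^ f := Nat.pow_le_pow_left hP.two_le f
                _ ≤ n := Nat.le_of_dvd h1 ⟨a * b * w', by rw [hnm]; ring⟩
                _ ≤ X := h2
            exact (Nat.pow_lt_pow_iff_right (by norm_num)).1 h3
          have hnsm : ns ((a * b * w') * P ^ (k + 1)) = (a * b * w') * P ^ (k + 1) := by
            rw [← Nat.succ_eq_add_one, ← hk, ← hnm]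
            exact hns
          left
          by_cases h0 : ns (a * b * w') = 0
          · right
            obtain ⟨q1, q2, q3⟩ := ns_zero_case hP hm0 hcopm hnsm h0 hmX
            rw [hnm, mul_comm]
            apply mem_CA _ (by rw [hk]; exact q1) hm0 hmX (by rw [hk]; exact q2)
            rw [Finset.mem_image]
            refine ⟨(P, f), ?_, rfl⟩
            rw [Finset.mem_product, Finset.mem_range, Finset.mem_range]
            exact ⟨q3, hfl⟩
          · left; right
            have hd := dvd_ns hP hm0 hcopm hnsm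
            rw [hSC]
            unfold CC
            rw [Finset.mem_biUnion]
            refine ⟨a * b * w', ?_, ?_⟩
            · rw [mem_MM]
              refine ⟨⟨hm0, ?_⟩, s, a, b, w', rfl, e2, e4, e5, e6, hfw', e9⟩
              rw [Nat.le_div_iff_mul_le (by omega)]
              calc a * b * w' * V ≤ a * b * w' * P ^ f := Nat.mul_le_mul_left _ hfV
                _ = n := hnm.symm
                _ ≤ X := h2
            · rw [Finset.mem_image]
              refine ⟨(P, f), ?_, hnm.symm⟩
              rw [Finset.mem_product, Finset.mem_range, Nat.mem_primeFactors]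
              exact ⟨⟨hP, hd, h0⟩, hfl⟩
    · -- case A
      left; left; left; left
      rw [not_le] at hsV
      have hn' : n = (b * w) * a := by rw [e1]; ring
      rw [hn']
      apply mem_CA _ e11 ha.1 ha.2 e12
      rw [mem_FL]
      refine ⟨⟨Nat.mul_pos hb.1 e13, ?_⟩, e14⟩
      have h3 : (b * w) * V ≤ V ^ 2 * V := by
        calc (b * w) * V ≤ (b * w) * a := Nat.mul_le_mul_left _ (by omega)
          _ = n := hn'.symm
          _ ≤ X := h2
          _ ≤ V ^ 3 := hXV
          _ = V ^ 2 * V := by ring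
      exact Nat.le_of_mul_le_mul_right h3 (by omega)
  -- cardinalities
  have hsq : ∀ x y : ℕ, x ^ 2 ≤ y ^ 2 → x ≤ y := fun x y h =>
    (Nat.pow_le_pow_iff_left (by norm_num)).1 h
  have hMM : ∀ Z, (MM X Z).card ^ 2 ≤ 9 * K ^ 2 * Z := fun Z => MM_card X Z W' Q hX hW' hQ
  have hMX : ∀ Z ≤ X, ∀ m ∈ MM X Z, 1 ≤ m ∧ m ≤ X := by
    intro Z hZ m hm
    have := (mem_MM.1 hm).1
    exact ⟨this.1, this.2.trans hZ⟩
  have hFX : ∀ Z, ∀ m ∈ FL (min X Z), 1 ≤ m ∧ m ≤ X := by
    intro Z m hm
    have := (mem_FL.1 hm).1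
    exact ⟨this.1, this.2.trans (min_le_left _ _)⟩
  have hFc : ∀ Z, (FL (min X Z)).card ^ 2 ≤ 9 * Z := by
    intro Z
    refine (FL_sq _).trans (Nat.mul_le_mul_left _ (min_le_right _ _))
  have hR3 : 216 * K ^ 3 * V ^ 3 = R ^ 3 := by rw [hR]; ring
  have hK23 : K ^ 2 ≤ K ^ 3 := Nat.pow_le_pow_right hK1 (by norm_num)
  have hcA : SA.card ≤ 3 * V * W := by
    refine (CA_card X W hW _).trans (Nat.mul_le_mul_right _ ?_)
    apply hsq
    calc (FL (V ^ 2)).card ^ 2 ≤ 9 * V ^ 2 := FL_sq _
      _ = (3 * V) ^ 2 := by ring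
  have hcB : SB.card ≤ W ^ 2 * (5 * R) := by
    have hb1 : (LL X V).card ≤ K * V := by
      refine (LL_card X V W' Q hW' hQ).trans ?_
      rw [mul_comm V, hK]
      apply Nat.mul_le_mul_right
      exact Nat.le_mul_of_pos_right _ (by omega)
    have hb2 := hFc V
    apply PR_card X W R hW
    · intro m hm
      exact (mem_LL.1 hm).1
    · exact hFX V
    · refine hb1.trans ?_
      rw [hR]
      nlinarith [Nat.zero_le (K * V)]
    · apply hsq
      refine hb2.trans ?_
      rw [hR]
      have h3 : V ≤ V ^ 2 := Nat.le_self_pow (by norm_num) V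
      calc 9 * V ≤ 9 * V ^ 2 := Nat.mul_le_mul_left _ h3
        _ ≤ 36 * K ^ 2 * V ^ 2 := by
            apply Nat.mul_le_mul_right
            have : 1 ≤ K ^ 2 := Nat.one_le_pow _ _ hK1
            omega
        _ = (6 * K * V) ^ 2 := by ring
    · rw [mul_pow, ← hR3]
      calc (LL X V).card ^ 2 * (FL (min X V)).card ^ 2 ≤ (K * V) ^ 2 * (9 * V) :=
            Nat.mul_le_mul (Nat.pow_le_pow_left hb1 2) hb2
        _ = 9 * (K ^ 2 * V ^ 3) := by ring
        _ ≤ 216 * (K ^ 3 * V ^ 3) := by
            apply Nat.mul_le_mul (by norm_num)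
            exact Nat.mul_le_mul_right _ hK23
        _ = 216 * K ^ 3 * V ^ 3 := by ring
  have hcM : (MM X (X / V)).card ≤ 3 * K * V := by
    apply hsq
    have h3 : X / V ≤ V ^ 2 := by
      rw [Nat.div_le_iff_le_mul_add_pred (by omega)]
      have : V ^ 3 = V * V ^ 2 := by ring
      omega
    calc (MM X (X / V)).card ^ 2 ≤ 9 * K ^ 2 * (X / V) := hMM _
      _ ≤ 9 * K ^ 2 * V ^ 2 := Nat.mul_le_mul_left _ h3
      _ = (3 * K * V) ^ 2 := by ring
  have hcC : SC.card ≤ 3 * K * V * (2 * l * l) := by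
    refine (CC_card _ X (hMX _ (Nat.div_le_self _ _))).trans ?_
    exact Nat.mul_le_mul_right _ hcM
  have hcC' : SC'.card ≤ (l + 3) * l * W := by
    refine (CA_card X W hW _).trans (Nat.mul_le_mul_right _ ?_)
    refine Finset.card_image_le.trans ?_
    rw [Finset.card_product, Finset.card_range, Finset.card_range]
  have hcD : SD.card ≤ l * (W ^ 2 * (5 * R)) := by
    rw [hSD]
    refine Finset.card_biUnion_le.trans ?_
    calc _ ≤ ∑ _j ∈ Finset.range l, W ^ 2 * (5 * R) := by
          apply Finset.sum_le_sum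
          intro j _
          split_ifs with hj
          · set Z := X / (2 ^ j * V) with hZ
            have hZ1 : Z * (2 ^ j * V) ≤ X := Nat.div_mul_le_self _ _
            have hM := hMM Z
            have hF := hFc (2 ^ (j + 1) * V)
            have h2j : 1 ≤ 2 ^ j := Nat.one_le_two_pow
            have hZ2 : Z ≤ V ^ 2 := by
              have h3 : Z * V ≤ V ^ 2 * V := by
                calc Z * V ≤ Z * (2 ^ j * V) := by
                      apply Nat.mul_le_mul_left
                      exact Nat.le_mul_of_pos_left V h2j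
                  _ ≤ X := hZ1
                  _ ≤ V ^ 3 := hXV
                  _ = V ^ 2 * V := by ring
              exact Nat.le_of_mul_le_mul_right h3 (by omega)
            apply PR_card X W R hW
            · exact hMX Z (Nat.div_le_self _ _)
            · exact hFX _
            · apply hsq
              refine hM.trans ?_
              calc 9 * K ^ 2 * Z ≤ 9 * K ^ 2 * V ^ 2 := Nat.mul_le_mul_left _ hZ2
                _ ≤ 36 * K ^ 2 * V ^ 2 := by
                    apply Nat.mul_le_mul_right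
                    apply Nat.mul_le_mul_right
                    norm_num
                _ = R ^ 2 := by rw [hR]; ring
            · apply hsq
              refine hF.trans ?_
              calc 9 * (2 ^ (j + 1) * V) = 18 * (2 ^ j * V) := by rw [pow_succ]; ring
                _ ≤ 18 * (V * V) := by
                    apply Nat.mul_le_mul_left
                    exact Nat.mul_le_mul_right _ hj
                _ = 18 * V ^ 2 := by ring
                _ ≤ 36 * K ^ 2 * V ^ 2 := by
                    apply Nat.mul_le_mul_right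
                    have : 1 ≤ K ^ 2 := Nat.one_le_pow _ _ hK1
                    omega
                _ = R ^ 2 := by rw [hR]; ring
            · rw [mul_pow, ← hR3]
              calc (MM X Z).card ^ 2 * (FL (min X (2 ^ (j + 1) * V))).card ^ 2
                  ≤ (9 * K ^ 2 * Z) * (9 * (2 ^ (j + 1) * V)) := Nat.mul_le_mul hM hF
                _ = 162 * K ^ 2 * (Z * (2 ^ j * V)) := by rw [pow_succ]; ring
                _ ≤ 162 * K ^ 2 * V ^ 3 := Nat.mul_le_mul_left _ (hZ1.trans hXV)
                _ ≤ 216 * K ^ 3 * V ^ 3 := by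
                    apply Nat.mul_le_mul_right
                    exact Nat.mul_le_mul (by norm_num) hK23
          · simp
      _ = l * (W ^ 2 * (5 * R)) := by
          rw [Finset.sum_const, Finset.card_range, smul_eq_mul]
  have htot : (NP X).card ≤ SA.card + SB.card + SC.card + SC'.card + SD.card := by
    refine (Finset.card_le_card hcover).trans ?_
    refine (Finset.card_union_le _ _).trans ?_
    apply Nat.add_le_add_right
    refine (Finset.card_union_le _ _).trans ?_
    apply Nat.add_le_add_right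
    refine (Finset.card_union_le _ _).trans ?_
    apply Nat.add_le_add_right
    exact Finset.card_union_le _ _
  set G := W ^ 2 * K * V * l ^ 2 with hG
  have hV1 : 1 ≤ V := by omega
  have hl2 : l ≤ l ^ 2 := Nat.le_self_pow (by norm_num) l
  have hl21 : 1 ≤ l ^ 2 := Nat.one_le_pow _ _ hl1
  have hWW : W ≤ W ^ 2 := Nat.le_self_pow (by norm_num) W
  have hW21 : 1 ≤ W ^ 2 := Nat.one_le_pow _ _ hW1
  have b1 : 3 * V * W ≤ 3 * G := by
    calc 3 * V * W = 3 * (W * 1 * V * 1) := by ring
      _ ≤ 3 * (W ^ 2 * K * V * l ^ 2) := by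
          apply Nat.mul_le_mul_left
          apply Nat.mul_le_mul _ hl21
          apply Nat.mul_le_mul_right
          exact Nat.mul_le_mul hWW hK1
  have b2 : W ^ 2 * (5 * R) ≤ 30 * G := by
    calc W ^ 2 * (5 * R) = 30 * (W ^ 2 * K * V * 1) := by rw [hR]; ring
      _ ≤ 30 * (W ^ 2 * K * V * l ^ 2) := by
          apply Nat.mul_le_mul_left
          exact Nat.mul_le_mul_left _ hl21
  have b3 : 3 * K * V * (2 * l * l) ≤ 6 * G := by
    calc 3 * K * V * (2 * l * l) = 6 * (1 * K * V * l ^ 2) := by ring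
      _ ≤ 6 * (W ^ 2 * K * V * l ^ 2) := by
          apply Nat.mul_le_mul_left
          apply Nat.mul_le_mul_right
          apply Nat.mul_le_mul_right
          exact Nat.mul_le_mul_right _ hW21
  have b4 : (l + 3) * l * W ≤ 4 * G := by
    calc (l + 3) * l * W ≤ (4 * l) * l * W := by
          apply Nat.mul_le_mul_right
          apply Nat.mul_le_mul_right
          omega
      _ = 4 * (W * 1 * 1 * l ^ 2) := by ring
      _ ≤ 4 * (W ^ 2 * K * V * l ^ 2) := by
          apply Nat.mul_le_mul_left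
          apply Nat.mul_le_mul_right
          apply Nat.mul_le_mul _ hV1
          exact Nat.mul_le_mul hWW hK1
  have b5 : l * (W ^ 2 * (5 * R)) ≤ 30 * G := by
    calc l * (W ^ 2 * (5 * R)) = 30 * (W ^ 2 * K * V * l) := by rw [hR]; ring
      _ ≤ 30 * (W ^ 2 * K * V * l ^ 2) := by
          apply Nat.mul_le_mul_left
          exact Nat.mul_le_mul_left _ hl2
  omega

end Pool.MP_f7abb8_nt.Cnt18
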