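import Pool.Agent.H.MP_f7abb8_nt.Cnt18.Incid

/-!
# The pieces of the count of nonunitary perfect numbers
-/

set_option autoImplicit false

namespace Pool.MP_f7abb8_nt.Cnt18

open Pool.MP_f7abb8_nt.NU ArithmeticFunction

/-- `⌊log₂ X⌋ + 1`. -/
def ll (X : ℕ) : ℕ := Nat.log 2 X + 1

theorem lt_two_pow_ll (X : ℕ) : X < 2 ^ ll X := Nat.lt_pow_succ_log_self (by norm_num) X

theorem ll_pos (X : ℕ) : 1 ≤ ll X := by unfold ll; omega

theorem log_le_ll {X : ℕ} (hX : 1 ≤ X) : Real.log X ≤ ll X := by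
  have h1 : (X : ℝ) ≤ (2 : ℝ) ^ ll X := by exact_mod_cast (lt_two_pow_ll X).le
  have h2 := Real.log_le_log (by exact_mod_cast hX) h1
  rw [Real.log_pow] at h2
  have h3 : Real.log 2 ≤ 1 := by
    have := Real.log_two_lt_d9
    linarith
  have h4 : (ll X : ℝ) * Real.log 2 ≤ (ll X : ℝ) * 1 :=
    mul_le_mul_of_nonneg_left h3 (by positivity)
  linarith

theorem sum_inv_le (X : ℕ) : ∑ s ∈ Finset.Icc 1 X, (1 / (s : ℝ)) ≤ 1 + Real.log X := by
  have h1 := harmonic_le_one_add_log X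
  rw [harmonic_eq_sum_Icc] at h1
  push_cast at h1
  simpa only [one_div] using h1

theorem sum_inv_le_ll {X : ℕ} (hX : 1 ≤ X) :
    ∑ s ∈ Finset.Icc 1 X, (1 / (s : ℝ)) ≤ ll X + 1 := by
  have h1 := sum_inv_le X
  have h2 := log_le_ll hX
  linarith

theorem sg_le_ll {m X : ℕ} (hm : 1 ≤ m) (hmX : m ≤ X) : sg m ≤ m * (ll X + 1) := by
  have h1 : (sg m : ℝ) ≤ (m : ℝ) * ∑ s ∈ Finset.Icc 1 X, (1 / (s : ℝ)) := by
    have h2 : (sg m : ℝ) = ∑ d ∈ m.divisors, ((m / d : ℕ) : ℝ) := by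
      unfold sg
      rw [← Nat.sum_div_divisors m (fun d => d)]
      push_cast
      rfl
    rw [h2, Finset.mul_sum]
    have h3 : m.divisors ⊆ Finset.Icc 1 X := by
      intro d hd
      rw [Finset.mem_Icc]
      exact ⟨Nat.pos_of_mem_divisors hd, (Nat.divisor_le hd).trans hmX⟩
    calc ∑ d ∈ m.divisors, ((m / d : ℕ) : ℝ)
        ≤ ∑ d ∈ m.divisors, (m : ℝ) * (1 / (d : ℝ)) := by
          apply Finset.sum_le_sum
          intro d _
          rw [mul_one_div]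
          exact Nat.cast_div_le
      _ ≤ ∑ d ∈ Finset.Icc 1 X, (m : ℝ) * (1 / (d : ℝ)) := by
          apply Finset.sum_le_sum_of_subset_of_nonneg h3
          intro d _ _
          positivity
  have h4 := sum_inv_le_ll (hm.trans hmX)
  have h5 : (sg m : ℝ) ≤ (m : ℝ) * ((ll X : ℝ) + 1) :=
    h1.trans (mul_le_mul_of_nonneg_left h4 (by positivity))
  exact_mod_cast h5

theorem FL_sq (M : ℕ) : (FL M).card ^ 2 ≤ 9 * M := by
  have h1 := FL_card M
  have h2 : ((FL M).card : ℝ) ^ 2 ≤ (3 * √(M : ℝ)) ^ 2 := pow_le_pow_left₀ (by positivity) h1 2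
  rw [mul_pow, Real.sq_sqrt (by positivity)] at h2
  have h3 : (((FL M).card ^ 2 : ℕ) : ℝ) ≤ ((9 * M : ℕ) : ℝ) := by
    push_cast
    linarith
  exact_mod_cast h3

/-- a full number `w ≥ V` without prime power divisors `≥ V` has a unitary divisor in `[V, V²)`. -/
theorem greedy (V : ℕ) (hV : 2 ≤ V) (w : ℕ) (hw : V ≤ w)
    (hc : ∀ p e, p.Prime → p ^ e ∣ w → p ^ e < V) :
    ∃ v w' : ℕ, w = v * w' ∧ Nat.Coprime v w' ∧ V ≤ v ∧ v < V ^ 2 := by
  induction w using Nat.strong_induction_on with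
  | _ w ih =>
    by_cases h1 : w < V ^ 2
    · exact ⟨w, 1, by simp, Nat.coprime_one_right w, hw, h1⟩
    · have hw1 : w ≠ 1 := by omega
      have hw0 : w ≠ 0 := by omega
      set p := w.minFac with hp
      have hpp : p.Prime := Nat.minFac_prime hw1
      have hpw : p ∣ w := Nat.minFac_dvd w
      set Q := p ^ w.factorization p with hQ
      have hQw : Q ∣ w := Nat.ordProj_dvd w p
      have hQV : Q < V := hc p _ hpp hQw
      have hprod : Q * (w / Q) = w := Nat.mul_div_cancel' hQw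
      have hcop : Nat.Coprime Q (w / Q) :=
        Nat.Coprime.pow_left _ (Nat.coprime_ordCompl hpp hw0)
      have hQ1 : 1 < Q := Nat.one_lt_pow (hpp.factorization_pos_of_dvd hw0 hpw).ne' hpp.one_lt
      have hlt : w / Q < w := Nat.div_lt_self (by omega) hQ1
      have hge : V ≤ w / Q := by
        by_contra h2
        rw [not_le] at h2
        have h3 : Q * (w / Q) < V * V := by
          apply Nat.mul_lt_mul'' hQV h2
        rw [hprod] at h3
        have : V ^ 2 = V * V := pow_two V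
        omega
      obtain ⟨v, w', g1, g2, g3, g4⟩ := ih (w / Q) hlt hge (fun q e hq hqe =>
        hc q e hq (hqe.trans (Nat.div_dvd_of_dvd hQw)))
      refine ⟨v, w' * Q, ?_, ?_, g3, g4⟩
      · rw [← hprod, g1]
        ring
      · apply Nat.Coprime.mul_right g2
        exact (Nat.Coprime.coprime_dvd_right ⟨w', g1⟩ hcop).symm

open Classical in
/-- the numbers `m ≤ Z` of the form `a b w`. -/
noncomputable def MM (X Z : ℕ) : Finset ℕ :=
  (Finset.Icc 1 Z).filter (fun m => ∃ s a b w, m = a * b * w ∧ 0 < s ∧ s ≤ X ∧ a ∈ LP X s ∧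
    b ∈ RD X (sg a) ∧ Full w ∧ s ^ 2 ≤ a * b)

theorem mem_MM {X Z m : ℕ} : m ∈ MM X Z ↔ (1 ≤ m ∧ m ≤ Z) ∧ ∃ s a b w, m = a * b * w ∧ 0 < s ∧
    s ≤ X ∧ a ∈ LP X s ∧ b ∈ RD X (sg a) ∧ Full w ∧ s ^ 2 ≤ a * b := by
  unfold MM
  classical
  rw [Finset.mem_filter, Finset.mem_Icc]

theorem MM_card (X Z W Q : ℕ) (hX : 1 ≤ X)
    (hW : ∀ s, 0 < s → s ≤ X → (LP X s).card ≤ W)
    (hQ : ∀ N, 0 < N → N ≤ X ^ 2 → (RD X N).card ≤ Q) :
    (MM X Z).card ^ 2 ≤ 9 * (W * Q * (ll X + 1)) ^ 2 * Z := by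
  classical
  have hsub : MM X Z ⊆ (Finset.Icc 1 X).biUnion (fun s => (LP X s).biUnion (fun a =>
      (RD X (sg a)).biUnion (fun b => (FL (Z / s ^ 2)).image (fun w => a * b * w)))) := by
    intro m hm
    obtain ⟨⟨h1, h2⟩, s, a, b, w, h3, h4, h5, h6, h7, h8, h9⟩ := mem_MM.1 hm
    rw [Finset.mem_biUnion]
    refine ⟨s, Finset.mem_Icc.2 ⟨h4, h5⟩, ?_⟩
    rw [Finset.mem_biUnion]
    refine ⟨a, h6, ?_⟩
    rw [Finset.mem_biUnion]
    refine ⟨b, h7, ?_⟩
    rw [Finset.mem_image]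
    refine ⟨w, ?_, h3.symm⟩
    rw [mem_FL]
    have hw0 : 0 < w := by
      rcases Nat.eq_zero_or_pos w with h | h
      · rw [h, mul_zero] at h3; omega
      · exact h
    refine ⟨⟨hw0, ?_⟩, h8⟩
    rw [Nat.le_div_iff_mul_le (by positivity)]
    calc w * s ^ 2 ≤ w * (a * b) := Nat.mul_le_mul_left _ h9
      _ = a * b * w := by ring
      _ = m := h3.symm
      _ ≤ Z := h2
  have h1 : (MM X Z).card ≤ ∑ s ∈ Finset.Icc 1 X, W * (Q * (FL (Z / s ^ 2)).card) := by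
    refine (Finset.card_le_card hsub).trans (Finset.card_biUnion_le.trans ?_)
    apply Finset.sum_le_sum
    intro s hs
    rw [Finset.mem_Icc] at hs
    refine Finset.card_biUnion_le.trans ?_
    calc ∑ a ∈ LP X s, ((RD X (sg a)).biUnion (fun b =>
          (FL (Z / s ^ 2)).image (fun w => a * b * w))).card
        ≤ ∑ _a ∈ LP X s, Q * (FL (Z / s ^ 2)).card := by
          apply Finset.sum_le_sum
          intro a ha
          obtain ⟨⟨ha1, ha2⟩, ha3, ha4⟩ := mem_LP.1 ha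
          refine Finset.card_biUnion_le.trans ?_
          calc ∑ b ∈ RD X (sg a), ((FL (Z / s ^ 2)).image (fun w => a * b * w)).card
              ≤ ∑ _b ∈ RD X (sg a), (FL (Z / s ^ 2)).card :=
                Finset.sum_le_sum (fun b _ => Finset.card_image_le)
            _ = (RD X (sg a)).card * (FL (Z / s ^ 2)).card := by
                rw [Finset.sum_const, smul_eq_mul]
            _ ≤ Q * (FL (Z / s ^ 2)).card := by
                apply Nat.mul_le_mul_right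
                exact hQ _ (sg_pos ha1) ((sg_le_sq a).trans (Nat.pow_le_pow_left ha2 2))
      _ = (LP X s).card * (Q * (FL (Z / s ^ 2)).card) := by
          rw [Finset.sum_const, smul_eq_mul]
      _ ≤ W * (Q * (FL (Z / s ^ 2)).card) := Nat.mul_le_mul_right _ (hW s hs.1 hs.2)
  have h2 : ((MM X Z).card : ℝ) ≤ ∑ s ∈ Finset.Icc 1 X, (W : ℝ) * (Q * ((FL (Z / s ^ 2)).card : ℝ)) := by
    exact_mod_cast h1
  have h3 : ((MM X Z).card : ℝ) ≤ 3 * (W * Q * (ll X + 1)) * √(Z : ℝ) := by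
    refine h2.trans ?_
    have h4 : ∀ s ∈ Finset.Icc 1 X, (W : ℝ) * (Q * ((FL (Z / s ^ 2)).card : ℝ)) ≤
        (3 * (W * Q) * √(Z : ℝ)) * (1 / (s : ℝ)) := by
      intro s hs
      rw [Finset.mem_Icc] at hs
      have hs0 : (0 : ℝ) < s := by exact_mod_cast hs.1
      have h5 := FL_card (Z / s ^ 2)
      have h6 : √((Z / s ^ 2 : ℕ) : ℝ) ≤ √(Z : ℝ) * (1 / (s : ℝ)) := by
        have h7 : ((Z / s ^ 2 : ℕ) : ℝ) ≤ (Z : ℝ) / (s : ℝ) ^ 2 := by
          have := @Nat.cast_div_le ℝ _ _ _ Z (s ^ 2)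
          push_cast at this
          exact this
        calc √((Z / s ^ 2 : ℕ) : ℝ) ≤ √((Z : ℝ) / (s : ℝ) ^ 2) := Real.sqrt_le_sqrt h7
          _ = √(Z : ℝ) * (1 / (s : ℝ)) := by
              rw [Real.sqrt_div (by positivity), Real.sqrt_sq hs0.le, mul_one_div]
      have h8 : ((FL (Z / s ^ 2)).card : ℝ) ≤ 3 * (√(Z : ℝ) * (1 / (s : ℝ))) := by linarith
      calc (W : ℝ) * (Q * ((FL (Z / s ^ 2)).card : ℝ))
          ≤ (W : ℝ) * (Q * (3 * (√(Z : ℝ) * (1 / (s : ℝ))))) := by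
            apply mul_le_mul_of_nonneg_left _ (by positivity)
            exact mul_le_mul_of_nonneg_left h8 (by positivity)
        _ = _ := by ring
    refine (Finset.sum_le_sum h4).trans ?_
    rw [← Finset.mul_sum]
    calc (3 * ((W : ℝ) * Q) * √(Z : ℝ)) * ∑ s ∈ Finset.Icc 1 X, (1 / (s : ℝ))
        ≤ (3 * ((W : ℝ) * Q) * √(Z : ℝ)) * (ll X + 1) :=
          mul_le_mul_of_nonneg_left (sum_inv_le_ll hX) (by positivity)
      _ = _ := by ring
  have h4 : ((MM X Z).card : ℝ) ^ 2 ≤ (3 * (W * Q * (ll X + 1)) * √(Z : ℝ)) ^ 2 :=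
    pow_le_pow_left₀ (by positivity) h3 2
  rw [mul_pow, Real.sq_sqrt (by positivity)] at h4
  have h5 : (((MM X Z).card ^ 2 : ℕ) : ℝ) ≤ ((9 * (W * Q * (ll X + 1)) ^ 2 * Z : ℕ) : ℝ) := by
    push_cast
    calc ((MM X Z).card : ℝ) ^ 2 ≤ _ := h4
      _ = _ := by ring
  exact_mod_cast h5

theorem omega_two (N X : ℕ) (hN : 0 < N) (hNX : N ≤ X ^ 2) : N.primeFactors.card ≤ 2 * ll X := by
  have h1 := pow_card_le_prod 1 N.primeFactors (fun p hp =>
    (Nat.prime_of_mem_primeFactors hp).one_lt)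
  have h2 : ∏ p ∈ N.primeFactors, p ≤ N := Nat.le_of_dvd hN (Nat.prod_primeFactors_dvd N)
  have h3 : X ^ 2 < 2 ^ (2 * ll X) := by
    rw [mul_comm, pow_mul]
    exact Nat.pow_lt_pow_left (lt_two_pow_ll X) (by norm_num)
  have h4 : 2 ^ N.primeFactors.card < 2 ^ (2 * ll X) := lt_of_le_of_lt (h1.trans (h2.trans hNX)) h3
  exact ((Nat.pow_lt_pow_iff_right (by norm_num)).1 h4).le

/-- the key congruence: `P ∣ ns m` if `m P^(k+1)` is nonunitary perfect. -/
theorem dvd_ns {m P k : ℕ} (hP : P.Prime) (hm : 0 < m) (hcop : Nat.Coprime m P)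
    (h : ns (m * P ^ (k + 1)) = m * P ^ (k + 1)) : P ∣ ns m := by
  have h1 : Nat.Coprime m (P ^ (k + 1)) := Nat.Coprime.pow_right _ hcop
  have h2 := sg_eq (m * P ^ (k + 1)) (mul_ne_zero hm.ne' (pow_ne_zero _ hP.ne_zero))
  rw [sg_mul h1, us_mul h1, h, sg_prime_pow hP, us_prime_pow hP, sg_eq m hm.ne'] at h2
  obtain ⟨t, ht⟩ := T_dvd P k
  have h3 : ns m + P * (us m * t + ns m * (t + P ^ k)) = P * (m * P ^ k) := by
    rw [ht, pow_succ] at h2
    nlinarith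
  have h4 : P ∣ P * (us m * t + ns m * (t + P ^ k)) := Dvd.intro _ rfl
  have h5 : P ∣ ns m + P * (us m * t + ns m * (t + P ^ k)) := by rw [h3]; exact Dvd.intro _ rfl
  exact (Nat.dvd_add_left h4).1 h5

/-- the case `ns m = 0`. -/
theorem ns_zero_case {m P k X : ℕ} (hP : P.Prime) (hm : 0 < m) (hcop : Nat.Coprime m P)
    (h : ns (m * P ^ (k + 1)) = m * P ^ (k + 1)) (h0 : ns m = 0) (hmX : m ≤ X) :
    0 < ns (P ^ (k + 1)) ∧ ns (P ^ (k + 1)) * sg m = P ^ (k + 1) * m ∧ P < ll X + 3 := by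
  have h1 : Nat.Coprime m (P ^ (k + 1)) := Nat.Coprime.pow_right _ hcop
  have hPk : 0 < P ^ (k + 1) := pow_pos hP.pos _
  have h2 := sg_eq (m * P ^ (k + 1)) (mul_ne_zero hm.ne' hPk.ne')
  have h3 : us m = sg m := by
    have := sg_eq m hm.ne'
    omega
  rw [sg_mul h1, us_mul h1, h, h3, sg_eq (P ^ (k + 1)) hPk.ne', mul_add] at h2
  have h4 : sg m * ns (P ^ (k + 1)) = m * P ^ (k + 1) := by omega
  have h5 : 0 < ns (P ^ (k + 1)) := by
    rcases Nat.eq_zero_or_pos (ns (P ^ (k + 1))) with h6 | h6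
    · rw [h6, mul_zero] at h4
      have : 0 < m * P ^ (k + 1) := Nat.mul_pos hm hPk
      omega
    · exact h6
  refine ⟨h5, by rw [mul_comm, h4, mul_comm], ?_⟩
  rw [ns_prime_pow hP] at h4
  have h6 := T_geom P k
  have h7 : (sg m : ℤ) * (T P k : ℤ) = (m : ℤ) * (P : ℤ) ^ (k + 1) := by exact_mod_cast h4
  have hPk' : (0 : ℤ) < (P : ℤ) ^ (k + 1) := by exact_mod_cast hPk
  have hs : (0 : ℤ) < sg m := by exact_mod_cast sg_pos hm
  have hP0 : (0 : ℤ) < P := by exact_mod_cast hP.pos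
  have h8 : ((m : ℤ) * ((P : ℤ) - 1)) * (P : ℤ) ^ (k + 1) < (sg m : ℤ) * (P : ℤ) ^ (k + 1) := by
    have h9 : ((m : ℤ) * ((P : ℤ) - 1)) * (P : ℤ) ^ (k + 1) =
        (sg m : ℤ) * ((P : ℤ) ^ (k + 1) - P) := by
      rw [← h6]
      linear_combination (-((P : ℤ) - 1)) * h7
    rw [h9]
    nlinarith
  have h10 : (m : ℤ) * ((P : ℤ) - 1) < sg m := lt_of_mul_lt_mul_right h8 hPk'.le
  have h11 : (sg m : ℤ) ≤ m * (ll X + 1) := by exact_mod_cast sg_le_ll hm hmX
  have hm' : (0 : ℤ) < m := by exact_mod_cast hm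
  have h12 : (P : ℤ) - 1 < ll X + 1 := by
    have : (m : ℤ) * ((P : ℤ) - 1) < m * (ll X + 1) := lt_of_lt_of_le h10 h11
    exact lt_of_mul_lt_mul_left this hm'.le
  have : (P : ℤ) < ll X + 3 := by linarith
  exact_mod_cast this

end Pool.MP_f7abb8_nt.Cnt18
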