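import Pool.Agent.H.MP_f7abb8_nt.Cnt18.Full

/-!
# Squarefree `a` with `a ∣ s σ(a)`, and numbers all of whose primes divide a given number
-/

set_option autoImplicit false

namespace Pool.MP_f7abb8_nt.Cnt18

open Pool.MP_f7abb8_nt.NU ArithmeticFunction

theorem sg_le_sq (A : ℕ) : sg A ≤ A ^ 2 := by
  unfold sg
  calc ∑ d ∈ A.divisors, d ≤ ∑ _d ∈ A.divisors, A :=
        Finset.sum_le_sum (fun d hd => Nat.divisor_le hd)
    _ = A.divisors.card * A := by rw [Finset.sum_const, smul_eq_mul]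
    _ ≤ A * A := Nat.mul_le_mul_right _ (Nat.card_divisors_le_self A)
    _ = A ^ 2 := by ring

open Classical in
/-- squarefree `y`-rough `B ≤ X` with `B ∣ c σ(B)`. -/
noncomputable def PF (X y c : ℕ) : Finset ℕ :=
  (Finset.Icc 1 X).filter (fun B => Squarefree B ∧ (∀ p, p.Prime → p ∣ B → y < p) ∧ B ∣ c * sg B)

theorem mem_PF {X y c B : ℕ} : B ∈ PF X y c ↔ (1 ≤ B ∧ B ≤ X) ∧ Squarefree B ∧
    (∀ p, p.Prime → p ∣ B → y < p) ∧ B ∣ c * sg B := by
  unfold PF
  classical
  rw [Finset.mem_filter, Finset.mem_Icc]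

theorem PF_card (X0 y : ℕ)
    (hab : ∀ B, 0 < B → B ≤ X0 → (∀ p, p.Prime → p ∣ B → y < p) → sg B < 2 * B) (k : ℕ) :
    ∀ c X : ℕ, 0 < c → X ≤ X0 → c * X ^ 2 < (y + 1) ^ k → (PF X y c).card ≤ 2 ^ k := by
  classical
  induction k with
  | zero =>
    intro c X hc hX h
    have hX0 : X = 0 := by
      by_contra h1
      have h2 : 0 < c * X ^ 2 := Nat.mul_pos hc (by positivity)
      rw [pow_zero] at h
      omega
    have h1 : PF X y c = ∅ := by
      rw [Finset.eq_empty_iff_forall_notMem]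
      intro B hB
      have := (mem_PF.1 hB).1
      omega
    rw [h1]
    simp
  | succ k ih =>
    intro c X hc hX h
    by_cases hP : ∃ P, P.Prime ∧ P ∣ c ∧ y < P
    · obtain ⟨P, hPp, hPc, hyP⟩ := hP
      obtain ⟨c1, hc1⟩ := hPc
      have hc10 : 0 < c1 := by
        rcases Nat.eq_zero_or_pos c1 with h1 | h1
        · rw [h1, mul_zero] at hc1; omega
        · exact h1
      have hsub : PF X y c ⊆ PF X y c1 ∪
          (PF (X / P) y (c1 * (P + 1))).image (fun B => P * B) := by
        intro B hB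
        obtain ⟨⟨h1, h2⟩, h3, h4, h5⟩ := mem_PF.1 hB
        rw [Finset.mem_union]
        by_cases hPB : P ∣ B
        · right
          obtain ⟨B', hB'⟩ := hPB
          rw [Finset.mem_image]
          refine ⟨B', ?_, hB'.symm⟩
          have h3' := h3
          rw [hB'] at h3'
          have hcop : Nat.Coprime P B' := Nat.coprime_of_squarefree_mul h3'
          have hB'0 : 0 < B' := by
            rcases Nat.eq_zero_or_pos B' with h6 | h6
            · rw [h6, mul_zero] at hB'; omega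
            · exact h6
          rw [mem_PF]
          refine ⟨⟨hB'0, ?_⟩, h3'.of_mul_right, ?_, ?_⟩
          · rw [Nat.le_div_iff_mul_le hPp.pos, mul_comm, ← hB']
            exact h2
          · intro p hp hpd
            exact h4 p hp (by rw [hB']; exact hpd.mul_left P)
          · have h6 : B' ∣ P * (c1 * (P + 1) * sg B') := by
              refine (Dvd.intro_left P hB'.symm).trans (h5.trans ?_)
              rw [hB', sg_mul hcop, sg_prime hPp, hc1]
              exact ⟨1, by ring⟩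
            exact hcop.symm.dvd_of_dvd_mul_left h6
        · left
          rw [mem_PF]
          refine ⟨⟨h1, h2⟩, h3, h4, ?_⟩
          have hcop : Nat.Coprime B P := ((Nat.Prime.coprime_iff_not_dvd hPp).2 hPB).symm
          rw [hc1, mul_assoc] at h5
          exact hcop.dvd_of_dvd_mul_left h5
      have hb1 : c1 * X ^ 2 < (y + 1) ^ k := by
        have h1 : (c1 * X ^ 2) * (y + 1) < (y + 1) ^ k * (y + 1) := by
          calc (c1 * X ^ 2) * (y + 1) ≤ (c1 * X ^ 2) * P := Nat.mul_le_mul_left _ hyP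
            _ = c * X ^ 2 := by rw [hc1]; ring
            _ < (y + 1) ^ (k + 1) := h
            _ = (y + 1) ^ k * (y + 1) := pow_succ _ _
        exact lt_of_mul_lt_mul_right h1 (Nat.zero_le _)
      have hb2 : (c1 * (P + 1)) * (X / P) ^ 2 < (y + 1) ^ k := by
        have h0 : P + 1 ≤ P ^ 2 := by nlinarith [hPp.two_le]
        have h1 : ((c1 * (P + 1)) * (X / P) ^ 2) * (y + 1) < (y + 1) ^ k * (y + 1) := by
          calc ((c1 * (P + 1)) * (X / P) ^ 2) * (y + 1)
              ≤ ((c1 * P ^ 2) * (X / P) ^ 2) * P := by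
                apply Nat.mul_le_mul _ hyP
                apply Nat.mul_le_mul_right
                exact Nat.mul_le_mul_left _ h0
            _ = (P * c1) * ((X / P) * P) ^ 2 := by ring
            _ ≤ (P * c1) * X ^ 2 := by
                apply Nat.mul_le_mul_left
                exact Nat.pow_le_pow_left (Nat.div_mul_le_self X P) 2
            _ = c * X ^ 2 := by rw [hc1]
            _ < (y + 1) ^ (k + 1) := h
            _ = (y + 1) ^ k * (y + 1) := pow_succ _ _
        exact lt_of_mul_lt_mul_right h1 (Nat.zero_le _)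
      calc (PF X y c).card ≤ _ := Finset.card_le_card hsub
        _ ≤ (PF X y c1).card + ((PF (X / P) y (c1 * (P + 1))).image (fun B => P * B)).card :=
            Finset.card_union_le _ _
        _ ≤ 2 ^ k + 2 ^ k := by
            apply Nat.add_le_add (ih c1 X hc10 hX hb1)
            refine Finset.card_image_le.trans (ih _ _ (Nat.mul_pos hc10 (by omega))
              ((Nat.div_le_self _ _).trans hX) hb2)
        _ = 2 ^ (k + 1) := by rw [pow_succ]; ring
    · have hsub : PF X y c ⊆ {1} := by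
        intro B hB
        obtain ⟨⟨h1, h2⟩, h3, h4, h5⟩ := mem_PF.1 hB
        rw [Finset.mem_singleton]
        by_contra hne
        have hcop : Nat.Coprime B c := by
          apply coprime_of_primes
          intro p hp hpB hpc
          exact hP ⟨p, hp, hpc, h4 p hp hpB⟩
        have h6 : B ∣ sg B := hcop.dvd_of_dvd_mul_left h5
        have h7 := sg_gt (show 1 < B by omega)
        have h8 := hab B h1 (h2.trans hX) h4
        obtain ⟨q, hq⟩ := h6
        rw [hq] at h7 h8
        have h9 : 1 < q := by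
          by_contra h10
          have : B * q ≤ B * 1 := Nat.mul_le_mul_left _ (by omega)
          omega
        have h10 : B * 2 ≤ B * q := Nat.mul_le_mul_left _ h9
        omega
      calc (PF X y c).card ≤ ({1} : Finset ℕ).card := Finset.card_le_card hsub
        _ = 1 := Finset.card_singleton 1
        _ ≤ 2 ^ (k + 1) := Nat.one_le_two_pow

open Classical in
/-- squarefree `a ≤ X` with `a ∣ s σ(a)`. -/
noncomputable def LP (X s : ℕ) : Finset ℕ :=
  (Finset.Icc 1 X).filter (fun a => Squarefree a ∧ a ∣ s * sg a)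

theorem mem_LP {X s a : ℕ} : a ∈ LP X s ↔ (1 ≤ a ∧ a ≤ X) ∧ Squarefree a ∧ a ∣ s * sg a := by
  unfold LP
  classical
  rw [Finset.mem_filter, Finset.mem_Icc]

theorem LP_card_le (X y T k s : ℕ) (hs : 0 < s) (hsX : s ≤ X) (hT : X < (y + 1) ^ (T + 1))
    (hTy : 2 * T < y + 1) (hk : X ^ 5 < (y + 1) ^ k) :
    (LP X s).card ≤ (SM X y).card * 2 ^ k := by
  classical
  have hab := rough_lt X y T hT hTy
  have hsub : LP X s ⊆ (SM X y).biUnion (fun A =>
      (PF X y (s * sg A)).image (fun B => A * B)) := by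
    intro a ha
    obtain ⟨⟨h1, h2⟩, h3, h3'⟩ := mem_LP.1 ha
    obtain ⟨A, B, h4, h5, h6, h7, h8⟩ := split_smooth y a h1
    have hAX : A ≤ X := (Nat.le_of_dvd h1 ⟨B, h4⟩).trans h2
    have hBX : B ≤ X := (Nat.le_of_dvd h1 ⟨A, by rw [h4]; ring⟩).trans h2
    rw [Finset.mem_biUnion]
    refine ⟨A, mem_SM.2 ⟨⟨h5, hAX⟩, h7⟩, ?_⟩
    rw [Finset.mem_image]
    refine ⟨B, ?_, h4.symm⟩
    rw [mem_PF]
    have hcop : Nat.Coprime A B := by
      apply coprime_of_primes
      intro p hp hpA hpB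
      have := h7 p hp hpA
      have := h8 p hp hpB
      omega
    refine ⟨⟨h6, hBX⟩, ?_, h8, ?_⟩
    · rw [h4] at h3
      exact h3.of_mul_right
    · refine (Dvd.intro_left A h4.symm).trans (h3'.trans ?_)
      rw [h4, sg_mul hcop]
      exact ⟨1, by ring⟩
  calc (LP X s).card ≤ _ := Finset.card_le_card hsub
    _ ≤ ∑ A ∈ SM X y, ((PF X y (s * sg A)).image (fun B => A * B)).card :=
        Finset.card_biUnion_le
    _ ≤ ∑ A ∈ SM X y, 2 ^ k := by
        apply Finset.sum_le_sum
        intro A hA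
        obtain ⟨⟨hA1, hA2⟩, hA3⟩ := mem_SM.1 hA
        refine Finset.card_image_le.trans (PF_card X y hab k _ _ (Nat.mul_pos hs (sg_pos hA1))
          le_rfl ?_)
        calc s * sg A * X ^ 2 ≤ X * X ^ 2 * X ^ 2 := by
              apply Nat.mul_le_mul_right
              apply Nat.mul_le_mul hsX
              exact (sg_le_sq A).trans (Nat.pow_le_pow_left hA2 2)
          _ = X ^ 5 := by ring
          _ < (y + 1) ^ k := hk
    _ = (SM X y).card * 2 ^ k := by rw [Finset.sum_const, smul_eq_mul]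

theorem pollack (ε : ℝ) (hε : 0 < ε) : ∃ C : ℝ, 1 ≤ C ∧ ∀ X : ℕ, 1 ≤ X → ∀ s : ℕ, 0 < s → s ≤ X →
    ((LP X s).card : ℝ) ≤ C * (X : ℝ) ^ ε := by
  set s : ℝ := ε / 2 with hs
  have hs0 : 0 < s := by rw [hs]; positivity
  set Cs : ℝ := (1 - (2 : ℝ) ^ (-s))⁻¹ with hCs
  have h2s := two_rpow_lt hs0
  have h2s0 : (0 : ℝ) < 2 ^ (-s) := by positivity
  have hCs1 : 1 < Cs := by
    rw [hCs, one_lt_inv₀ (by linarith)]
    linarith
  set L : ℝ := Real.log Cs with hL
  have hL0 : 0 < L := Real.log_pos hCs1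
  set δ : ℝ := ε / (4 * L) with hδ
  have hδ0 : 0 < δ := by rw [hδ]; positivity
  set K : ℝ := max (20 * Real.log 2 / ε) (2 / δ) with hK
  set X0 : ℝ := Real.exp (Real.exp K / δ) with hX0
  refine ⟨max (2 * Cs) X0, le_max_of_le_left (by linarith), ?_⟩
  intro X hX u hu huX
  have hX1 : (1 : ℝ) ≤ X := by exact_mod_cast hX
  have hXpos : (0 : ℝ) < X := by linarith
  have hXe : 1 ≤ (X : ℝ) ^ ε := Real.one_le_rpow hX1 hε.le
  by_cases hbig : X0 ≤ X
  · have hlogX : Real.exp K ≤ δ * Real.log X := by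
      have h1 : Real.exp K / δ ≤ Real.log X := by
        rw [Real.le_log_iff_exp_le hXpos]
        exact hbig
      rw [div_le_iff₀ hδ0] at h1
      linarith
    set y : ℕ := ⌈δ * Real.log X⌉₊ with hy
    have hy1 : δ * Real.log X ≤ y := Nat.le_ceil _
    have hlog0 : 0 ≤ δ * Real.log X := by positivity
    have hy2 : (y : ℝ) < δ * Real.log X + 1 := Nat.ceil_lt_add_one hlog0
    have hy3 : (0 : ℝ) < y := lt_of_lt_of_le (Real.exp_pos K) (hlogX.trans hy1)
    have hy4 : K ≤ Real.log ((y : ℝ) + 1) := by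
      rw [Real.le_log_iff_exp_le (by linarith)]
      linarith
    set T : ℕ := Nat.log (y + 1) X with hT
    set k : ℕ := Nat.log (y + 1) (X ^ 5) with hk
    have hy5 : 1 < y + 1 := by
      have : 0 < y := by exact_mod_cast hy3
      omega
    have hT1 : X < (y + 1) ^ (T + 1) := Nat.lt_pow_succ_log_self hy5 X
    have hT2 : (y + 1) ^ T ≤ X := Nat.pow_log_le_self (y + 1) (by omega)
    have hk1 : X ^ 5 < (y + 1) ^ (k + 1) := Nat.lt_pow_succ_log_self hy5 (X ^ 5)
    have hk2 : (y + 1) ^ k ≤ X ^ 5 :=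
      Nat.pow_log_le_self (y + 1) (pow_ne_zero _ (by omega))
    have hT3 : (T : ℝ) * Real.log ((y : ℝ) + 1) ≤ Real.log X := by
      have h1 : (((y + 1) ^ T : ℕ) : ℝ) ≤ X := by exact_mod_cast hT2
      push_cast at h1
      have h2 := Real.log_le_log (by positivity) h1
      rwa [Real.log_pow] at h2
    have hk3 : (k : ℝ) * Real.log ((y : ℝ) + 1) ≤ 5 * Real.log X := by
      have h1 : (((y + 1) ^ k : ℕ) : ℝ) ≤ ((X ^ 5 : ℕ) : ℝ) := by exact_mod_cast hk2
      push_cast at h1
      have h2 := Real.log_le_log (by positivity) h1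
      rw [Real.log_pow, Real.log_pow] at h2
      exact_mod_cast h2
    have hK1 : 20 * Real.log 2 / ε ≤ Real.log ((y : ℝ) + 1) := (le_max_left _ _).trans hy4
    have hK2 : 2 / δ ≤ Real.log ((y : ℝ) + 1) := (le_max_right _ _).trans hy4
    have hTy : 2 * T < y + 1 := by
      have h1 : 2 * (T : ℝ) ≤ y := by
        have h2 : 2 ≤ Real.log ((y : ℝ) + 1) * δ := by rwa [div_le_iff₀ hδ0] at hK2
        calc 2 * (T : ℝ) ≤ Real.log ((y : ℝ) + 1) * δ * T := by
              apply mul_le_mul_of_nonneg_right h2 (by positivity)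
          _ = δ * ((T : ℝ) * Real.log ((y : ℝ) + 1)) := by ring
          _ ≤ δ * Real.log X := mul_le_mul_of_nonneg_left hT3 hδ0.le
          _ ≤ y := hy1
      have : 2 * T ≤ y := by exact_mod_cast h1
      omega
    have h1 := LP_card_le X y T (k + 1) u hu huX hT1 hTy hk1
    have h2 : ((LP X u).card : ℝ) ≤ ((SM X y).card : ℝ) * 2 ^ (k + 1) := by exact_mod_cast h1
    have h3 := smooth_count s hs0 X y
    have h4 : Cs ^ y ≤ Cs * (X : ℝ) ^ (ε / 4) := by
      calc Cs ^ y = Cs ^ (y : ℝ) := (Real.rpow_natCast Cs y).symm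
        _ ≤ Cs ^ (δ * Real.log X + 1) := Real.rpow_le_rpow_of_exponent_le hCs1.le hy2.le
        _ = Cs ^ (δ * Real.log X) * Cs := by
            rw [Real.rpow_add (by linarith), Real.rpow_one]
        _ = Cs * (X : ℝ) ^ (ε / 4) := by
            rw [mul_comm]
            congr 1
            rw [Real.rpow_def_of_pos (by linarith), Real.rpow_def_of_pos hXpos]
            congr 1
            rw [← hL, hδ]
            field_simp
    have h5 : (2 : ℝ) ^ k ≤ (X : ℝ) ^ (ε / 4) := by
      have h6 : (k : ℝ) * Real.log 2 ≤ Real.log X * (ε / 4) := by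
        have h7 : Real.log 2 ≤ Real.log ((y : ℝ) + 1) * (ε / 20) := by
          rw [div_le_iff₀ hε] at hK1
          linarith
        calc (k : ℝ) * Real.log 2 ≤ (k : ℝ) * (Real.log ((y : ℝ) + 1) * (ε / 20)) :=
              mul_le_mul_of_nonneg_left h7 (by positivity)
          _ = ((k : ℝ) * Real.log ((y : ℝ) + 1)) * (ε / 20) := by ring
          _ ≤ (5 * Real.log X) * (ε / 20) := mul_le_mul_of_nonneg_right hk3 (by positivity)
          _ = Real.log X * (ε / 4) := by ring
      rw [Real.rpow_def_of_pos hXpos, ← Real.rpow_natCast, Real.rpow_def_of_pos (by norm_num)]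
      apply Real.exp_le_exp.2
      linarith
    have hXs : (0 : ℝ) ≤ (X : ℝ) ^ s := by positivity
    calc ((LP X u).card : ℝ) ≤ ((SM X y).card : ℝ) * 2 ^ (k + 1) := h2
      _ = 2 * (((SM X y).card : ℝ) * 2 ^ k) := by rw [pow_succ]; ring
      _ ≤ 2 * (((X : ℝ) ^ s * Cs ^ y) * 2 ^ k) := by
          apply mul_le_mul_of_nonneg_left _ (by norm_num)
          exact mul_le_mul_of_nonneg_right h3 (by positivity)
      _ ≤ 2 * (((X : ℝ) ^ s * (Cs * (X : ℝ) ^ (ε / 4))) * (X : ℝ) ^ (ε / 4)) := by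
          apply mul_le_mul_of_nonneg_left _ (by norm_num)
          apply mul_le_mul (mul_le_mul_of_nonneg_left h4 hXs) h5 (by positivity) (by positivity)
      _ = 2 * Cs * (X : ℝ) ^ ε := by
          have h6 : (X : ℝ) ^ ε = (X : ℝ) ^ s * (X : ℝ) ^ (ε / 4) * (X : ℝ) ^ (ε / 4) := by
            rw [← Real.rpow_add hXpos, ← Real.rpow_add hXpos]
            congr 1
            rw [hs]
            ring
          rw [h6]
          ring
      _ ≤ max (2 * Cs) X0 * (X : ℝ) ^ ε :=
          mul_le_mul_of_nonneg_right (le_max_left _ _) (by positivity)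
  · have h1 : (LP X u).card ≤ X := by
      unfold LP
      refine (Finset.card_filter_le _ _).trans ?_
      rw [Nat.card_Icc]
      omega
    have h2 : ((LP X u).card : ℝ) ≤ X := by exact_mod_cast h1
    calc ((LP X u).card : ℝ) ≤ X := h2
      _ ≤ X0 := (not_le.1 hbig).le
      _ ≤ max (2 * Cs) X0 := le_max_right _ _
      _ = max (2 * Cs) X0 * 1 := by ring
      _ ≤ max (2 * Cs) X0 * (X : ℝ) ^ ε := by
          apply mul_le_mul_of_nonneg_left hXe
          exact le_max_of_le_left (by linarith)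

open Classical in
/-- the `k ≤ X` all of whose prime factors divide `N`. -/
noncomputable def RD (X N : ℕ) : Finset ℕ :=
  (Finset.Icc 1 X).filter (fun k => ∀ p, p.Prime → p ∣ k → p ∣ N)

theorem mem_RD {X N k : ℕ} : k ∈ RD X N ↔ (1 ≤ k ∧ k ≤ X) ∧ ∀ p, p.Prime → p ∣ k → p ∣ N := by
  unfold RD
  classical
  rw [Finset.mem_filter, Finset.mem_Icc]

theorem RD_card_le (s : ℝ) (hs : 0 < s) (X N : ℕ) (hN : 0 < N) :
    ((RD X N).card : ℝ) ≤ (X : ℝ) ^ s * ((1 - (2 : ℝ) ^ (-s))⁻¹) ^ N.primeFactors.card := by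
  classical
  set S := RD X N with hS
  have hlt : ∀ {p : ℕ}, p.Prime → ‖npow s p‖ < 1 := by
    intro p hp
    rw [npow_apply, Real.norm_of_nonneg (by positivity)]
    exact Real.rpow_lt_one_of_one_lt_of_neg (by exact_mod_cast hp.one_lt) (by linarith)
  obtain ⟨h1, h2⟩ := EulerProduct.summable_and_hasSum_factoredNumbers_prod_filter_prime_geometric
    (f := npow s) hlt N.primeFactors
  have hmem : ∀ m ∈ S, m ∈ Nat.factoredNumbers N.primeFactors := by
    intro m hm
    rw [hS, mem_RD] at hm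
    rw [Nat.mem_factoredNumbers']
    intro p hp hpm
    rw [Nat.mem_primeFactors]
    exact ⟨hp, hm.2 p hp hpm, hN.ne'⟩
  have hsum : ∑ m ∈ S, (m : ℝ) ^ (-s) ≤
      ∏ p ∈ N.primeFactors with p.Prime, (1 - npow s p)⁻¹ := by
    have h3 : ∑ m ∈ S, (m : ℝ) ^ (-s) =
        ∑ m ∈ S.subtype (· ∈ Nat.factoredNumbers N.primeFactors), npow s m := by
      rw [Finset.sum_subtype_of_mem (fun m => npow s m) hmem]
      rfl
    rw [h3]
    exact sum_le_hasSum _ (fun m _ => by rw [npow_apply]; positivity) h2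
  have hb1 : 1 ≤ (1 - (2 : ℝ) ^ (-s))⁻¹ := by
    have h4 := two_rpow_lt hs
    have h5 : (0 : ℝ) < 2 ^ (-s) := by positivity
    rw [one_le_inv₀ (by linarith)]
    linarith
  have hprod : ∏ p ∈ N.primeFactors with p.Prime, (1 - npow s p)⁻¹ ≤
      ((1 - (2 : ℝ) ^ (-s))⁻¹) ^ N.primeFactors.card := by
    calc ∏ p ∈ N.primeFactors with p.Prime, (1 - npow s p)⁻¹
        ≤ ∏ p ∈ N.primeFactors with p.Prime, (1 - (2 : ℝ) ^ (-s))⁻¹ := by
          apply Finset.prod_le_prod
          · intro p hp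
            rw [Finset.mem_filter] at hp
            have h6 := hlt hp.2
            rw [npow_apply, Real.norm_of_nonneg (by positivity)] at h6
            rw [npow_apply, inv_nonneg]
            linarith
          · intro p hp
            rw [Finset.mem_filter] at hp
            rw [npow_apply]
            have h4 := two_rpow_lt hs
            apply inv_anti₀ (by linarith)
            have h7 : (p : ℝ) ^ (-s) ≤ 2 ^ (-s) := by
              apply Real.rpow_le_rpow_of_nonpos (by norm_num) (by exact_mod_cast hp.2.two_le)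
              linarith
            linarith
      _ = ((1 - (2 : ℝ) ^ (-s))⁻¹) ^ (N.primeFactors.filter Nat.Prime).card := by
          rw [Finset.prod_const]
      _ ≤ ((1 - (2 : ℝ) ^ (-s))⁻¹) ^ N.primeFactors.card := by
          apply pow_le_pow_right₀ hb1
          exact Finset.card_filter_le _ _
  have hcard : (S.card : ℝ) ≤ (X : ℝ) ^ s * ∑ m ∈ S, (m : ℝ) ^ (-s) := by
    rw [Finset.mul_sum, Finset.card_eq_sum_ones]
    push_cast
    apply Finset.sum_le_sum
    intro m hm
    rw [hS, mem_RD] at hm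
    have hm1 : (0 : ℝ) < m := by exact_mod_cast hm.1.1
    rw [Real.rpow_neg hm1.le, ← div_eq_mul_inv, one_le_div (by positivity)]
    exact Real.rpow_le_rpow hm1.le (by exact_mod_cast hm.1.2) hs.le
  calc (S.card : ℝ) ≤ (X : ℝ) ^ s * ∑ m ∈ S, (m : ℝ) ^ (-s) := hcard
    _ ≤ (X : ℝ) ^ s * ((1 - (2 : ℝ) ^ (-s))⁻¹) ^ N.primeFactors.card := by
        apply mul_le_mul_of_nonneg_left (hsum.trans hprod) (by positivity)

theorem pow_card_le_prod (y : ℕ) (S : Finset ℕ) (h : ∀ p ∈ S, y < p) :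
    (y + 1) ^ S.card ≤ ∏ p ∈ S, p := by
  rw [← Finset.prod_const]
  exact Finset.prod_le_prod' (fun p hp => h p hp)

theorem omega_le (y N : ℕ) (hy : 0 < y) (hN : 0 < N) :
    N.primeFactors.card ≤ y + Nat.log (y + 1) N := by
  classical
  rw [← Finset.card_filter_add_card_filter_not (s := N.primeFactors) (fun p => p ≤ y)]
  apply Nat.add_le_add
  · have h1 : N.primeFactors.filter (fun p => p ≤ y) ⊆ Finset.Icc 1 y := by
      intro p hp
      rw [Finset.mem_filter] at hp
      rw [Finset.mem_Icc]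
      exact ⟨(Nat.prime_of_mem_primeFactors hp.1).one_lt.le, hp.2⟩
    refine (Finset.card_le_card h1).trans ?_
    rw [Nat.card_Icc]
    omega
  · apply Nat.le_log_of_pow_le (by omega)
    have h1 := pow_card_le_prod y (N.primeFactors.filter (fun p => ¬ p ≤ y)) (by
      intro p hp
      rw [Finset.mem_filter] at hp
      omega)
    refine h1.trans ?_
    have h2 : ∏ p ∈ N.primeFactors.filter (fun p => ¬ p ≤ y), p ∣ ∏ p ∈ N.primeFactors, p :=
      Finset.prod_dvd_prod_of_subset _ _ _ (Finset.filter_subset _ _)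
    exact Nat.le_of_dvd hN (h2.trans (Nat.prod_primeFactors_dvd N))

theorem radical_count (ε : ℝ) (hε : 0 < ε) : ∃ C : ℝ, 1 ≤ C ∧ ∀ X : ℕ, 1 ≤ X → ∀ N : ℕ, 0 < N →
    N ≤ X ^ 2 → ((RD X N).card : ℝ) ≤ C * (X : ℝ) ^ ε := by
  set s : ℝ := ε / 2 with hs
  have hs0 : 0 < s := by rw [hs]; positivity
  set Cs : ℝ := (1 - (2 : ℝ) ^ (-s))⁻¹ with hCs
  have h2s := two_rpow_lt hs0
  have h2s0 : (0 : ℝ) < 2 ^ (-s) := by positivity
  have hCs1 : 1 < Cs := by
    rw [hCs, one_lt_inv₀ (by linarith)]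
    linarith
  set L : ℝ := Real.log Cs with hL
  have hL0 : 0 < L := Real.log_pos hCs1
  set y : ℕ := ⌈Real.exp (4 * L / ε)⌉₊ with hy
  have hy1 : Real.exp (4 * L / ε) ≤ y := Nat.le_ceil _
  have hy0' : (0 : ℝ) < y := lt_of_lt_of_le (Real.exp_pos _) hy1
  have hy0 : 0 < y := by exact_mod_cast hy0'
  have hy2 : 4 * L / ε ≤ Real.log ((y : ℝ) + 1) := by
    rw [Real.le_log_iff_exp_le (by linarith)]
    linarith
  refine ⟨Cs ^ y, one_le_pow₀ hCs1.le, ?_⟩
  intro X hX N hN hNX
  have hX1 : (1 : ℝ) ≤ X := by exact_mod_cast hX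
  have hXpos : (0 : ℝ) < X := by linarith
  set k : ℕ := Nat.log (y + 1) N with hk
  have hk2 : (y + 1) ^ k ≤ N := Nat.pow_log_le_self (y + 1) (by omega)
  have hk3 : (k : ℝ) * Real.log ((y : ℝ) + 1) ≤ 2 * Real.log X := by
    have h1 : (((y + 1) ^ k : ℕ) : ℝ) ≤ ((X ^ 2 : ℕ) : ℝ) := by exact_mod_cast hk2.trans hNX
    push_cast at h1
    have h2 := Real.log_le_log (by positivity) h1
    rw [Real.log_pow, Real.log_pow] at h2
    exact_mod_cast h2
  have h5 : Cs ^ k ≤ (X : ℝ) ^ s := by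
    have h6 : (k : ℝ) * L ≤ Real.log X * s := by
      have h7 : L ≤ Real.log ((y : ℝ) + 1) * (ε / 4) := by
        rw [div_le_iff₀ hε] at hy2
        linarith
      calc (k : ℝ) * L ≤ (k : ℝ) * (Real.log ((y : ℝ) + 1) * (ε / 4)) :=
            mul_le_mul_of_nonneg_left h7 (by positivity)
        _ = ((k : ℝ) * Real.log ((y : ℝ) + 1)) * (ε / 4) := by ring
        _ ≤ (2 * Real.log X) * (ε / 4) := mul_le_mul_of_nonneg_right hk3 (by positivity)
        _ = Real.log X * s := by rw [hs]; ring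
    rw [Real.rpow_def_of_pos hXpos, ← Real.rpow_natCast, Real.rpow_def_of_pos (by linarith)]
    apply Real.exp_le_exp.2
    rw [← hL]
    linarith
  have h3 := RD_card_le s hs0 X N hN
  have h4 : Cs ^ N.primeFactors.card ≤ Cs ^ (y + k) :=
    pow_le_pow_right₀ hCs1.le (omega_le y N hy0 hN)
  have hXs : (0 : ℝ) ≤ (X : ℝ) ^ s := by positivity
  calc ((RD X N).card : ℝ) ≤ (X : ℝ) ^ s * Cs ^ N.primeFactors.card := h3
    _ ≤ (X : ℝ) ^ s * Cs ^ (y + k) := mul_le_mul_of_nonneg_left h4 hXs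
    _ = (X : ℝ) ^ s * (Cs ^ y * Cs ^ k) := by rw [pow_add]
    _ ≤ (X : ℝ) ^ s * (Cs ^ y * (X : ℝ) ^ s) := by
        apply mul_le_mul_of_nonneg_left _ hXs
        exact mul_le_mul_of_nonneg_left h5 (by positivity)
    _ = Cs ^ y * (X : ℝ) ^ ε := by
        have h6 : (X : ℝ) ^ ε = (X : ℝ) ^ s * (X : ℝ) ^ s := by
          rw [← Real.rpow_add hXpos]
          congr 1
          rw [hs]
          ring
        rw [h6]
        ring

end Pool.MP_f7abb8_nt.Cnt18
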