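import Pool.Agent.H.MP_f7abb8_nt.Sums

/-!
# Counting rough numbers with a given value of `σ(B)/B` (Hornfeck-Wirsing, rough part)
-/

set_option autoImplicit false

namespace Pool.MP_f7abb8_nt.Cnt18

open Pool.MP_f7abb8_nt.NU ArithmeticFunction

theorem sum_two_pow (T : ℕ) : ∑ e ∈ Finset.Icc 1 T, 2 ^ (T - e) + 1 = 2 ^ T := by
  induction T with
  | zero => simp
  | succ T ih =>
    have h1 : ∑ e ∈ Finset.Icc 1 (T + 1), 2 ^ (T + 1 - e) =
        2 * ∑ e ∈ Finset.Icc 1 T, 2 ^ (T - e) + 1 := by
      rw [Finset.sum_Icc_succ_top (by omega), Finset.mul_sum]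
      congr 1
      · apply Finset.sum_congr rfl
        intro e he
        rw [Finset.mem_Icc] at he
        rw [show T + 1 - e = (T - e) + 1 by omega, pow_succ]
        ring
      · simp
    rw [h1, pow_succ]
    omega

theorem sg_pos {m : ℕ} (hm : 0 < m) : 0 < sg m := lt_of_lt_of_le hm (sg_ge hm.ne')

theorem sg_gt {m : ℕ} (hm : 1 < m) : m < sg m := by
  unfold sg
  have h1 : ({1, m} : Finset ℕ) ⊆ m.divisors := by
    intro d hd
    rw [Finset.mem_insert, Finset.mem_singleton] at hd
    rw [Nat.mem_divisors]
    rcases hd with rfl | rfl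
    · exact ⟨one_dvd _, by omega⟩
    · exact ⟨dvd_rfl, by omega⟩
  have h2 := Finset.sum_le_sum_of_subset (f := fun d : ℕ => d) h1
  rw [Finset.sum_pair (by omega)] at h2
  omega

open Classical in
/-- the rough numbers `B ≤ X` with at most `T` prime factors and `v σ(B) = u B`. -/
noncomputable def RF (X y T u v : ℕ) : Finset ℕ :=
  (Finset.Icc 1 X).filter (fun B => (∀ p, p.Prime → p ∣ B → y < p) ∧ cardFactors B ≤ T ∧
    v * sg B = u * B)

theorem mem_RF {X y T u v B : ℕ} : B ∈ RF X y T u v ↔ (1 ≤ B ∧ B ≤ X) ∧
    (∀ p, p.Prime → p ∣ B → y < p) ∧ cardFactors B ≤ T ∧ v * sg B = u * B := by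
  unfold RF
  classical
  rw [Finset.mem_filter, Finset.mem_Icc]

theorem rough_count (X y : ℕ)
    (hX : ∀ B, 0 < B → B ≤ X → (∀ p, p.Prime → p ∣ B → y < p) → sg B < 2 * B) (T : ℕ) :
    ∀ u v : ℕ, 0 < v → (RF X y T u v).card ≤ 2 ^ T := by
  classical
  induction T using Nat.strong_induction_on with
  | _ T ih =>
    intro u v hv
    by_cases huv : u = v
    · have h1 : RF X y T u v ⊆ {1} := by
        intro B hB
        obtain ⟨⟨h1, h2⟩, h3, h4, h5⟩ := mem_RF.1 hB
        rw [Finset.mem_singleton]
        by_contra hne
        have h6 := sg_gt (show 1 < B by omega)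
        rw [huv] at h5
        have := Nat.eq_of_mul_eq_mul_left hv h5
        omega
      calc (RF X y T u v).card ≤ ({1} : Finset ℕ).card := Finset.card_le_card h1
        _ = 1 := Finset.card_singleton 1
        _ ≤ 2 ^ T := Nat.one_le_two_pow
    · obtain ⟨g, u', v', hg, hco, hu', hv'⟩ : ∃ g u' v' : ℕ, 0 < g ∧ Nat.Coprime u' v' ∧
          u = u' * g ∧ v = v' * g := by
        have hg : 0 < Nat.gcd u v := Nat.gcd_pos_of_pos_right _ hv
        obtain ⟨u', v', h1, h2, h3⟩ := Nat.exists_coprime u v
        exact ⟨Nat.gcd u v, u', v', hg, h1, h2, h3⟩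
      have hv'0 : 0 < v' := Nat.pos_of_ne_zero (by rintro rfl; simp at hv'; omega)
      have hred : ∀ B, B ∈ RF X y T u v → v' * sg B = u' * B := by
        intro B hB
        obtain ⟨⟨h1, h2⟩, h3, h4, h5⟩ := mem_RF.1 hB
        rw [hu', hv'] at h5
        apply Nat.eq_of_mul_eq_mul_left hg
        calc g * (v' * sg B) = v' * g * sg B := by ring
          _ = u' * g * B := h5
          _ = g * (u' * B) := by ring
      by_cases hv1 : v' = 1
      · have h1 : RF X y T u v = ∅ := by
          rw [Finset.eq_empty_iff_forall_notMem]
          intro B hB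
          have h6 := hred B hB
          obtain ⟨⟨h1, h2⟩, h3, h4, h5⟩ := mem_RF.1 hB
          have h7 := hX B h1 h2 h3
          have h8 := sg_ge (show B ≠ 0 by omega)
          rw [hv1, one_mul] at h6
          rw [h6] at h7 h8
          have h9 : u' < 2 := lt_of_mul_lt_mul_right h7 (Nat.zero_le _)
          have h10 : 1 ≤ u' := by
            by_contra h
            have : u' = 0 := by omega
            rw [this] at h8
            omega
          have h11 : u' = 1 := by omega
          apply huv
          rw [hu', hv', hv1, h11]
        rw [h1]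
        simp
      · set P := v'.minFac with hP
        have hPp : P.Prime := Nat.minFac_prime hv1
        have hdvd : ∀ B, B ∈ RF X y T u v → P ∣ B := by
          intro B hB
          have h6 := hred B hB
          have h7 : v' ∣ u' * B := ⟨sg B, h6.symm⟩
          have h8 : v' ∣ B := (Nat.Coprime.dvd_of_dvd_mul_left hco.symm h7)
          exact (Nat.minFac_dvd v').trans h8
        have hsub : RF X y T u v ⊆ (Finset.Icc 1 T).biUnion (fun e =>
            (RF X y (T - e) (u * P ^ e) (v * sg (P ^ e))).image (fun B' => P ^ e * B')) := by
          intro B hB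
          obtain ⟨⟨h1, h2⟩, h3, h4, h5⟩ := mem_RF.1 hB
          have hPB := hdvd B hB
          have hB0 : B ≠ 0 := by omega
          rw [Finset.mem_biUnion]
          refine ⟨B.factorization P, ?_, ?_⟩
          · rw [Finset.mem_Icc]
            constructor
            · exact hPp.factorization_pos_of_dvd hB0 hPB
            · have h6 : cardFactors (P ^ B.factorization P * (B / P ^ B.factorization P)) ≤ T := by
                rw [Nat.ordProj_mul_ordCompl_eq_self]
                exact h4
              rw [cardFactors_mul (pow_ne_zero _ hPp.ne_zero) (Nat.ordCompl_pos P hB0).ne',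
                cardFactors_apply_prime_pow hPp] at h6
              omega
          · rw [Finset.mem_image]
            refine ⟨B / P ^ B.factorization P, ?_, Nat.ordProj_mul_ordCompl_eq_self B P⟩
            rw [mem_RF]
            have h7 : 0 < B / P ^ B.factorization P := Nat.ordCompl_pos P hB0
            have hcop : Nat.Coprime (P ^ B.factorization P) (B / P ^ B.factorization P) :=
              Nat.Coprime.pow_left _ (Nat.coprime_ordCompl hPp hB0)
            refine ⟨⟨h7, (Nat.div_le_self _ _).trans h2⟩, ?_, ?_, ?_⟩
            · intro p hp hpd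
              exact h3 p hp (hpd.trans (Nat.ordCompl_dvd B P))
            · have h6 : cardFactors (P ^ B.factorization P * (B / P ^ B.factorization P)) ≤ T := by
                rw [Nat.ordProj_mul_ordCompl_eq_self]
                exact h4
              rw [cardFactors_mul (pow_ne_zero _ hPp.ne_zero) h7.ne',
                cardFactors_apply_prime_pow hPp] at h6
              omega
            · have h8 : sg B = sg (P ^ B.factorization P) * sg (B / P ^ B.factorization P) := by
                rw [← sg_mul hcop, Nat.ordProj_mul_ordCompl_eq_self]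
              calc v * sg (P ^ B.factorization P) * sg (B / P ^ B.factorization P)
                  = v * sg B := by rw [h8]; ring
                _ = u * B := h5
                _ = u * (P ^ B.factorization P * (B / P ^ B.factorization P)) := by
                    rw [Nat.ordProj_mul_ordCompl_eq_self]
                _ = u * P ^ B.factorization P * (B / P ^ B.factorization P) := by ring
        calc (RF X y T u v).card ≤ _ := Finset.card_le_card hsub
          _ ≤ ∑ e ∈ Finset.Icc 1 T, ((RF X y (T - e) (u * P ^ e) (v * sg (P ^ e))).image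
              (fun B' => P ^ e * B')).card := Finset.card_biUnion_le
          _ ≤ ∑ e ∈ Finset.Icc 1 T, 2 ^ (T - e) := by
              apply Finset.sum_le_sum
              intro e he
              rw [Finset.mem_Icc] at he
              refine Finset.card_image_le.trans (ih (T - e) (by omega) _ _ ?_)
              exact Nat.mul_pos hv (sg_pos (pow_pos hPp.pos _))
          _ ≤ 2 ^ T := by
              have := sum_two_pow T
              omega

end Pool.MP_f7abb8_nt.Cnt18
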