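import Pool.Agent.H.MP_f7abb8_nt.Cnt18.Rough

/-!
# Rankin's bound for the number of smooth numbers (crude form)
-/

set_option autoImplicit false

namespace Pool.MP_f7abb8_nt.Cnt18

/-- `m ↦ m^(-s)` as a monoid homomorphism. -/
noncomputable def npow (s : ℝ) : ℕ →* ℝ where
  toFun m := (m : ℝ) ^ (-s)
  map_one' := by simp
  map_mul' a b := by
    push_cast
    exact Real.mul_rpow (by positivity) (by positivity)

theorem npow_apply (s : ℝ) (m : ℕ) : npow s m = (m : ℝ) ^ (-s) := rfl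

theorem two_rpow_lt {s : ℝ} (hs : 0 < s) : (2 : ℝ) ^ (-s) < 1 :=
  Real.rpow_lt_one_of_one_lt_of_neg (by norm_num) (by linarith)

open Classical in
/-- the `y`-smooth numbers up to `X`. -/
noncomputable def SM (X y : ℕ) : Finset ℕ :=
  (Finset.Icc 1 X).filter (fun A => ∀ p, p.Prime → p ∣ A → p ≤ y)

theorem mem_SM {X y A : ℕ} : A ∈ SM X y ↔ (1 ≤ A ∧ A ≤ X) ∧ ∀ p, p.Prime → p ∣ A → p ≤ y := by
  unfold SM
  classical
  rw [Finset.mem_filter, Finset.mem_Icc]

theorem smooth_count (s : ℝ) (hs : 0 < s) (X y : ℕ) :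
    ((SM X y).card : ℝ) ≤ (X : ℝ) ^ s * ((1 - (2 : ℝ) ^ (-s))⁻¹) ^ y := by
  classical
  set S := SM X y with hS
  have hlt : ∀ {p : ℕ}, p.Prime → ‖npow s p‖ < 1 := by
    intro p hp
    rw [npow_apply, Real.norm_of_nonneg (by positivity)]
    exact Real.rpow_lt_one_of_one_lt_of_neg (by exact_mod_cast hp.one_lt) (by linarith)
  obtain ⟨h1, h2⟩ := EulerProduct.summable_and_hasSum_factoredNumbers_prod_filter_prime_geometric
    (f := npow s) hlt (Finset.Icc 1 y)
  have hmem : ∀ m ∈ S, m ∈ Nat.factoredNumbers (Finset.Icc 1 y) := by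
    intro m hm
    rw [hS, mem_SM] at hm
    rw [Nat.mem_factoredNumbers']
    intro p hp hpm
    rw [Finset.mem_Icc]
    exact ⟨hp.one_lt.le, hm.2 p hp hpm⟩
  have hsum : ∑ m ∈ S, (m : ℝ) ^ (-s) ≤
      ∏ p ∈ (Finset.Icc 1 y) with p.Prime, (1 - npow s p)⁻¹ := by
    have h3 : ∑ m ∈ S, (m : ℝ) ^ (-s) =
        ∑ m ∈ S.subtype (· ∈ Nat.factoredNumbers (Finset.Icc 1 y)), npow s m := by
      rw [Finset.sum_subtype_of_mem (fun m => npow s m) hmem]
      rfl
    rw [h3]
    exact sum_le_hasSum _ (fun m _ => by rw [npow_apply]; positivity) h2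
  have hb1 : 1 ≤ (1 - (2 : ℝ) ^ (-s))⁻¹ := by
    have h4 := two_rpow_lt hs
    have h5 : (0 : ℝ) < 2 ^ (-s) := by positivity
    rw [one_le_inv₀ (by linarith)]
    linarith
  have hprod : ∏ p ∈ (Finset.Icc 1 y) with p.Prime, (1 - npow s p)⁻¹ ≤
      ((1 - (2 : ℝ) ^ (-s))⁻¹) ^ y := by
    calc ∏ p ∈ (Finset.Icc 1 y) with p.Prime, (1 - npow s p)⁻¹
        ≤ ∏ p ∈ (Finset.Icc 1 y) with p.Prime, (1 - (2 : ℝ) ^ (-s))⁻¹ := by
          apply Finset.prod_le_prod
          · intro p hp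
            rw [Finset.mem_filter] at hp
            have h6 := hlt hp.2
            rw [npow_apply, Real.norm_of_nonneg (by positivity)] at h6
            rw [npow_apply, inv_nonneg]
            linarith
          · intro p hp
            rw [Finset.mem_filter] at hp
            rw [npow_apply]
            have h4 := two_rpow_lt hs
            apply inv_anti₀ (by linarith)
            have h7 : (p : ℝ) ^ (-s) ≤ 2 ^ (-s) := by
              apply Real.rpow_le_rpow_of_nonpos (by norm_num) (by exact_mod_cast hp.2.two_le)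
              linarith
            linarith
      _ = ((1 - (2 : ℝ) ^ (-s))⁻¹) ^ ((Finset.Icc 1 y).filter Nat.Prime).card := by
          rw [Finset.prod_const]
      _ ≤ ((1 - (2 : ℝ) ^ (-s))⁻¹) ^ y := by
          apply pow_le_pow_right₀ hb1
          refine (Finset.card_filter_le _ _).trans ?_
          rw [Nat.card_Icc]
          omega
  have hcard : (S.card : ℝ) ≤ (X : ℝ) ^ s * ∑ m ∈ S, (m : ℝ) ^ (-s) := by
    rw [Finset.mul_sum, Finset.card_eq_sum_ones]
    push_cast
    apply Finset.sum_le_sum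
    intro m hm
    rw [hS, mem_SM] at hm
    have hm1 : (0 : ℝ) < m := by exact_mod_cast hm.1.1
    rw [Real.rpow_neg hm1.le, ← div_eq_mul_inv, one_le_div (by positivity)]
    exact Real.rpow_le_rpow hm1.le (by exact_mod_cast hm.1.2) hs.le
  calc (S.card : ℝ) ≤ (X : ℝ) ^ s * ∑ m ∈ S, (m : ℝ) ^ (-s) := hcard
    _ ≤ (X : ℝ) ^ s * ((1 - (2 : ℝ) ^ (-s))⁻¹) ^ y := by
        apply mul_le_mul_of_nonneg_left (hsum.trans hprod) (by positivity)

end Pool.MP_f7abb8_nt.Cnt18
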