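import Pool.Agent.H.MP_f7abb8_nt.Cnt18.Smooth

/-!
# A weak form of Wirsing's theorem: few `m ≤ X` have a given value of `σ(m)/m`
-/

set_option autoImplicit false

namespace Pool.MP_f7abb8_nt.Cnt18

open Pool.MP_f7abb8_nt.NU ArithmeticFunction

theorem coprime_of_primes {A B : ℕ} (h : ∀ p, p.Prime → p ∣ A → ¬ p ∣ B) : Nat.Coprime A B :=
  Nat.coprime_of_dvd (fun p hp h1 h2 => h p hp h1 h2)

theorem sg_prime_mul_le {p a : ℕ} (hp : p.Prime) (ha : 0 < a) : sg (p * a) ≤ (p + 1) * sg a := by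
  classical
  have hsub : (p * a).divisors ⊆ a.divisors ∪ a.divisors.image (fun d => p * d) := by
    intro d hd
    rw [Nat.mem_divisors] at hd
    rw [Finset.mem_union, Finset.mem_image]
    by_cases hpd : p ∣ d
    · obtain ⟨c, rfl⟩ := hpd
      right
      refine ⟨c, ?_, rfl⟩
      rw [Nat.mem_divisors]
      exact ⟨Nat.dvd_of_mul_dvd_mul_left hp.pos hd.1, ha.ne'⟩
    · left
      rw [Nat.mem_divisors]
      refine ⟨?_, ha.ne'⟩
      have hc : Nat.Coprime d p := ((Nat.Prime.coprime_iff_not_dvd hp).2 hpd).symm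
      exact hc.dvd_of_dvd_mul_left hd.1
  unfold sg
  calc ∑ d ∈ (p * a).divisors, d
      ≤ ∑ d ∈ a.divisors ∪ a.divisors.image (fun d => p * d), d :=
        Finset.sum_le_sum_of_subset hsub
    _ ≤ ∑ d ∈ a.divisors, d + ∑ d ∈ a.divisors.image (fun d => p * d), d := by
        rw [← Finset.sum_union_inter]
        exact Nat.le_add_right _ _
    _ = ∑ d ∈ a.divisors, d + ∑ d ∈ a.divisors, p * d := by
        rw [Finset.sum_image]
        intro x _ y _ hxy
        exact Nat.eq_of_mul_eq_mul_left hp.pos hxy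
    _ = (p + 1) * ∑ d ∈ a.divisors, d := by
        rw [← Finset.mul_sum]
        ring

theorem rough_props (y : ℕ) (B : ℕ) (hB : 0 < B) (hr : ∀ p, p.Prime → p ∣ B → y < p) :
    (y + 1) ^ cardFactors B ≤ B ∧ sg B * y ^ cardFactors B ≤ B * (y + 1) ^ cardFactors B := by
  induction B using Nat.strong_induction_on with
  | _ B ih =>
    by_cases h1 : B = 1
    · subst h1
      simp [sg]
    · set p := B.minFac with hpdef
      have hp : p.Prime := Nat.minFac_prime h1
      obtain ⟨c, hc⟩ : p ∣ B := Nat.minFac_dvd B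
      have hc0 : 0 < c := by
        rcases Nat.eq_zero_or_pos c with h | h
        · rw [h, mul_zero] at hc; omega
        · exact h
      have hcB : c < B := by
        rw [hc]
        exact lt_mul_of_one_lt_left hc0 hp.one_lt
      have hyp : y < p := hr p hp ⟨c, hc⟩
      obtain ⟨h2, h3⟩ := ih c hcB hc0 (fun q hq hqc => hr q hq (by rw [hc]; exact hqc.mul_left p))
      have hcf : cardFactors B = cardFactors c + 1 := by
        conv_lhs => rw [hc]
        rw [cardFactors_mul hp.ne_zero hc0.ne', cardFactors_apply_prime hp]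
        ring
      rw [hcf]
      constructor
      · rw [pow_succ]
        conv_rhs => rw [hc]
        calc (y + 1) ^ cardFactors c * (y + 1) ≤ c * p := Nat.mul_le_mul h2 hyp
          _ = p * c := mul_comm _ _
      · have h4 : sg B ≤ (p + 1) * sg c := by
          conv_lhs => rw [hc]
          exact sg_prime_mul_le hp hc0
        have h5 : (p + 1) * y ≤ p * (y + 1) := by nlinarith
        calc sg B * y ^ (cardFactors c + 1) ≤ ((p + 1) * sg c) * y ^ (cardFactors c + 1) :=
              Nat.mul_le_mul_right _ h4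
          _ = ((p + 1) * y) * (sg c * y ^ cardFactors c) := by rw [pow_succ]; ring
          _ ≤ (p * (y + 1)) * (c * (y + 1) ^ cardFactors c) := Nat.mul_le_mul h5 h3
          _ = (p * c) * (y + 1) ^ (cardFactors c + 1) := by rw [pow_succ]; ring
          _ = B * (y + 1) ^ (cardFactors c + 1) := by rw [← hc]

theorem split_smooth (y m : ℕ) (hm : 0 < m) : ∃ A B : ℕ, m = A * B ∧ 0 < A ∧ 0 < B ∧
    (∀ p, p.Prime → p ∣ A → p ≤ y) ∧ (∀ p, p.Prime → p ∣ B → y < p) := by
  induction m using Nat.strong_induction_on with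
  | _ m ih =>
    by_cases h1 : m = 1
    · refine ⟨1, 1, by rw [h1], one_pos, one_pos, ?_, ?_⟩
      · intro p hp hpd
        exact absurd (Nat.dvd_one.1 hpd) hp.ne_one
      · intro p hp hpd
        exact absurd (Nat.dvd_one.1 hpd) hp.ne_one
    · set p := m.minFac with hpdef
      have hp : p.Prime := Nat.minFac_prime h1
      obtain ⟨c, hc⟩ : p ∣ m := Nat.minFac_dvd m
      have hc0 : 0 < c := by
        rcases Nat.eq_zero_or_pos c with h | h
        · rw [h, mul_zero] at hc; omega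
        · exact h
      have hcm : c < m := by
        rw [hc]
        exact lt_mul_of_one_lt_left hc0 hp.one_lt
      obtain ⟨A, B, h2, h3, h4, h5, h6⟩ := ih c hcm hc0
      by_cases hpy : p ≤ y
      · refine ⟨p * A, B, by rw [hc, h2]; ring, Nat.mul_pos hp.pos h3, h4, ?_, h6⟩
        intro q hq hqd
        rcases (Nat.Prime.dvd_mul hq).1 hqd with h | h
        · rw [(Nat.prime_dvd_prime_iff_eq hq hp).1 h]
          exact hpy
        · exact h5 q hq h
      · refine ⟨A, p * B, by rw [hc, h2]; ring, h3, Nat.mul_pos hp.pos h4, h5, ?_⟩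
        intro q hq hqd
        rcases (Nat.Prime.dvd_mul hq).1 hqd with h | h
        · rw [(Nat.prime_dvd_prime_iff_eq hq hp).1 h]
          omega
        · exact h6 q hq h

/-- the numbers `m ≤ X` with `v σ(m) = u m`. -/
def WF (X u v : ℕ) : Finset ℕ := (Finset.Icc 1 X).filter (fun m => v * sg m = u * m)

theorem mem_WF {X u v m : ℕ} : m ∈ WF X u v ↔ (1 ≤ m ∧ m ≤ X) ∧ v * sg m = u * m := by
  unfold WF
  rw [Finset.mem_filter, Finset.mem_Icc]

theorem rough_Omega (X y T : ℕ) (hT : X < (y + 1) ^ (T + 1)) : ∀ B, 0 < B → B ≤ X →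
    (∀ p, p.Prime → p ∣ B → y < p) → cardFactors B ≤ T := by
  intro B hB hBX hr
  have h1 := (rough_props y B hB hr).1
  have h2 : (y + 1) ^ cardFactors B < (y + 1) ^ (T + 1) := lt_of_le_of_lt (h1.trans hBX) hT
  by_contra h3
  have h4 : (y + 1) ^ (T + 1) ≤ (y + 1) ^ cardFactors B :=
    Nat.pow_le_pow_right (by omega) (by omega)
  omega

theorem rough_lt (X y T : ℕ) (hT : X < (y + 1) ^ (T + 1)) (hTy : 2 * T < y + 1) :
    ∀ B, 0 < B → B ≤ X → (∀ p, p.Prime → p ∣ B → y < p) → sg B < 2 * B := by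
  intro B hB hBX hr
  have h1 := (rough_props y B hB hr).2
  have h2 := rough_Omega X y T hT B hB hBX hr
  set k := cardFactors B with hk
  rcases Nat.eq_zero_or_pos y with hy0 | hy0
  · have hk0 : k = 0 := by omega
    rw [hk0] at h1
    simp at h1
    omega
  have h3 : (y + 1) ^ k < 2 * y ^ k := by
    have h4 : (0 : ℝ) < (y : ℝ) + 1 := by positivity
    have h5 : 1 + (k : ℝ) * (-(1 / ((y : ℝ) + 1))) ≤ (1 + (-(1 / ((y : ℝ) + 1)))) ^ k := by
      apply one_add_mul_le_pow
      have : 1 / ((y : ℝ) + 1) ≤ 1 := by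
        rw [div_le_one h4]
        have : (0 : ℝ) ≤ y := by positivity
        linarith
      linarith
    have h6 : (1 + (-(1 / ((y : ℝ) + 1)))) = y / ((y : ℝ) + 1) := by
      field_simp
      ring
    rw [h6, div_pow] at h5
    have h7 : (k : ℝ) * (1 / ((y : ℝ) + 1)) < 1 / 2 := by
      rw [mul_one_div, div_lt_div_iff₀ h4 (by norm_num)]
      have : 2 * k < y + 1 := by omega
      have : 2 * (k : ℝ) < (y : ℝ) + 1 := by exact_mod_cast this
      linarith
    have h8 : (1 : ℝ) / 2 < (y : ℝ) ^ k / ((y : ℝ) + 1) ^ k := by linarith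
    rw [div_lt_div_iff₀ (by norm_num) (by positivity)] at h8
    have h9 : (((y + 1) ^ k : ℕ) : ℝ) < ((2 * y ^ k : ℕ) : ℝ) := by
      push_cast
      linarith
    exact_mod_cast h9
  have h10 : sg B * y ^ k < (2 * B) * y ^ k := by
    calc sg B * y ^ k ≤ B * (y + 1) ^ k := h1
      _ < B * (2 * y ^ k) := Nat.mul_lt_mul_of_pos_left h3 hB
      _ = (2 * B) * y ^ k := by ring
  exact lt_of_mul_lt_mul_right h10 (Nat.zero_le _)

theorem WF_card_le (X y T u v : ℕ) (hv : 0 < v) (hT : X < (y + 1) ^ (T + 1)) (hTy : 2 * T < y + 1) :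
    (WF X u v).card ≤ (SM X y).card * 2 ^ T := by
  classical
  have hOm := rough_Omega X y T hT
  have hab := rough_lt X y T hT hTy
  have hsub : WF X u v ⊆ (SM X y).biUnion (fun A =>
      (RF X y T (u * A) (v * sg A)).image (fun B => A * B)) := by
    intro m hm
    obtain ⟨⟨h1, h2⟩, h3⟩ := mem_WF.1 hm
    obtain ⟨A, B, h4, h5, h6, h7, h8⟩ := split_smooth y m h1
    have hAX : A ≤ X := (Nat.le_of_dvd h1 ⟨B, h4⟩).trans h2
    have hBX : B ≤ X := (Nat.le_of_dvd h1 ⟨A, by rw [h4]; ring⟩).trans h2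
    rw [Finset.mem_biUnion]
    refine ⟨A, mem_SM.2 ⟨⟨h5, hAX⟩, h7⟩, ?_⟩
    rw [Finset.mem_image]
    refine ⟨B, ?_, h4.symm⟩
    rw [mem_RF]
    refine ⟨⟨h6, hBX⟩, h8, hOm B h6 hBX h8, ?_⟩
    have hcop : Nat.Coprime A B := by
      apply coprime_of_primes
      intro p hp hpA hpB
      have := h7 p hp hpA
      have := h8 p hp hpB
      omega
    rw [h4, sg_mul hcop] at h3
    calc v * sg A * sg B = v * (sg A * sg B) := by ring
      _ = u * (A * B) := h3
      _ = u * A * B := by ring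
  calc (WF X u v).card ≤ _ := Finset.card_le_card hsub
    _ ≤ ∑ A ∈ SM X y, ((RF X y T (u * A) (v * sg A)).image (fun B => A * B)).card :=
        Finset.card_biUnion_le
    _ ≤ ∑ A ∈ SM X y, 2 ^ T := by
        apply Finset.sum_le_sum
        intro A hA
        have hA1 := (mem_SM.1 hA).1.1
        exact Finset.card_image_le.trans
          (rough_count X y hab T _ _ (Nat.mul_pos hv (sg_pos hA1)))
    _ = (SM X y).card * 2 ^ T := by rw [Finset.sum_const, smul_eq_mul]

theorem wirsing (ε : ℝ) (hε : 0 < ε) : ∃ C : ℝ, 1 ≤ C ∧ ∀ X : ℕ, 1 ≤ X → ∀ u v : ℕ, 0 < v →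
    ((WF X u v).card : ℝ) ≤ C * (X : ℝ) ^ ε := by
  set s : ℝ := ε / 2 with hs
  have hs0 : 0 < s := by rw [hs]; positivity
  set Cs : ℝ := (1 - (2 : ℝ) ^ (-s))⁻¹ with hCs
  have h2s := two_rpow_lt hs0
  have h2s0 : (0 : ℝ) < 2 ^ (-s) := by positivity
  have hCs1 : 1 < Cs := by
    rw [hCs, one_lt_inv₀ (by linarith)]
    linarith
  set L : ℝ := Real.log Cs with hL
  have hL0 : 0 < L := Real.log_pos hCs1
  set δ : ℝ := ε / (4 * L) with hδ
  have hδ0 : 0 < δ := by rw [hδ]; positivity
  set K : ℝ := max (4 * Real.log 2 / ε) (2 / δ) with hK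
  set X0 : ℝ := Real.exp (Real.exp K / δ) with hX0
  refine ⟨max Cs X0, le_max_of_le_left hCs1.le, ?_⟩
  intro X hX u v hv
  have hX1 : (1 : ℝ) ≤ X := by exact_mod_cast hX
  have hXpos : (0 : ℝ) < X := by linarith
  have hXe : 1 ≤ (X : ℝ) ^ ε := Real.one_le_rpow hX1 hε.le
  by_cases hbig : X0 ≤ X
  · have hlogX : Real.exp K ≤ δ * Real.log X := by
      have h1 : Real.exp K / δ ≤ Real.log X := by
        rw [Real.le_log_iff_exp_le hXpos]
        exact hbig
      rw [div_le_iff₀ hδ0] at h1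
      linarith
    set y : ℕ := ⌈δ * Real.log X⌉₊ with hy
    have hy1 : δ * Real.log X ≤ y := Nat.le_ceil _
    have hlog0 : 0 ≤ δ * Real.log X := by positivity
    have hy2 : (y : ℝ) < δ * Real.log X + 1 := Nat.ceil_lt_add_one hlog0
    have hy3 : (0 : ℝ) < y := lt_of_lt_of_le (Real.exp_pos K) (hlogX.trans hy1)
    have hy4 : K ≤ Real.log ((y : ℝ) + 1) := by
      rw [Real.le_log_iff_exp_le (by linarith)]
      linarith
    set T : ℕ := Nat.log (y + 1) X with hT
    have hy5 : 1 < y + 1 := by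
      have : 0 < y := by exact_mod_cast hy3
      omega
    have hT1 : X < (y + 1) ^ (T + 1) := Nat.lt_pow_succ_log_self hy5 X
    have hT2 : (y + 1) ^ T ≤ X := Nat.pow_log_le_self (y + 1) (by omega)
    have hT3 : (T : ℝ) * Real.log ((y : ℝ) + 1) ≤ Real.log X := by
      have h1 : (((y + 1) ^ T : ℕ) : ℝ) ≤ X := by exact_mod_cast hT2
      push_cast at h1
      have h2 := Real.log_le_log (by positivity) h1
      rwa [Real.log_pow] at h2
    have hK1 : 4 * Real.log 2 / ε ≤ Real.log ((y : ℝ) + 1) := (le_max_left _ _).trans hy4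
    have hK2 : 2 / δ ≤ Real.log ((y : ℝ) + 1) := (le_max_right _ _).trans hy4
    have hTy : 2 * T < y + 1 := by
      have h1 : 2 * (T : ℝ) ≤ y := by
        have h2 : 2 ≤ Real.log ((y : ℝ) + 1) * δ := by rwa [div_le_iff₀ hδ0] at hK2
        calc 2 * (T : ℝ) ≤ Real.log ((y : ℝ) + 1) * δ * T := by
              apply mul_le_mul_of_nonneg_right h2 (by positivity)
          _ = δ * ((T : ℝ) * Real.log ((y : ℝ) + 1)) := by ring
          _ ≤ δ * Real.log X := mul_le_mul_of_nonneg_left hT3 hδ0.le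
          _ ≤ y := hy1
      have : 2 * T ≤ y := by exact_mod_cast h1
      omega
    have h1 := WF_card_le X y T u v hv hT1 hTy
    have h2 : ((WF X u v).card : ℝ) ≤ ((SM X y).card : ℝ) * 2 ^ T := by exact_mod_cast h1
    have h3 := smooth_count s hs0 X y
    have h4 : Cs ^ y ≤ Cs * (X : ℝ) ^ (ε / 4) := by
      calc Cs ^ y = Cs ^ (y : ℝ) := (Real.rpow_natCast Cs y).symm
        _ ≤ Cs ^ (δ * Real.log X + 1) := Real.rpow_le_rpow_of_exponent_le hCs1.le hy2.le
        _ = Cs ^ (δ * Real.log X) * Cs := by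
            rw [Real.rpow_add (by linarith), Real.rpow_one]
        _ = Cs * (X : ℝ) ^ (ε / 4) := by
            rw [mul_comm]
            congr 1
            rw [Real.rpow_def_of_pos (by linarith), Real.rpow_def_of_pos hXpos]
            congr 1
            rw [← hL, hδ]
            field_simp
    have h5 : (2 : ℝ) ^ T ≤ (X : ℝ) ^ (ε / 4) := by
      have h6 : (T : ℝ) * Real.log 2 ≤ Real.log X * (ε / 4) := by
        have h7 : Real.log 2 ≤ Real.log ((y : ℝ) + 1) * (ε / 4) := by
          rw [div_le_iff₀ hε] at hK1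
          linarith
        calc (T : ℝ) * Real.log 2 ≤ (T : ℝ) * (Real.log ((y : ℝ) + 1) * (ε / 4)) :=
              mul_le_mul_of_nonneg_left h7 (by positivity)
          _ = ((T : ℝ) * Real.log ((y : ℝ) + 1)) * (ε / 4) := by ring
          _ ≤ Real.log X * (ε / 4) := mul_le_mul_of_nonneg_right hT3 (by positivity)
      rw [Real.rpow_def_of_pos hXpos, ← Real.rpow_natCast, Real.rpow_def_of_pos (by norm_num)]
      apply Real.exp_le_exp.2
      linarith
    have hXs : (0 : ℝ) ≤ (X : ℝ) ^ s := by positivity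
    calc ((WF X u v).card : ℝ) ≤ ((SM X y).card : ℝ) * 2 ^ T := h2
      _ ≤ ((X : ℝ) ^ s * Cs ^ y) * 2 ^ T := mul_le_mul_of_nonneg_right h3 (by positivity)
      _ ≤ ((X : ℝ) ^ s * (Cs * (X : ℝ) ^ (ε / 4))) * (X : ℝ) ^ (ε / 4) := by
          apply mul_le_mul (mul_le_mul_of_nonneg_left h4 hXs) h5 (by positivity) (by positivity)
      _ = Cs * (X : ℝ) ^ ε := by
          have h6 : (X : ℝ) ^ ε = (X : ℝ) ^ s * (X : ℝ) ^ (ε / 4) * (X : ℝ) ^ (ε / 4) := by
            rw [← Real.rpow_add hXpos, ← Real.rpow_add hXpos]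
            congr 1
            rw [hs]
            ring
          rw [h6]
          ring
      _ ≤ max Cs X0 * (X : ℝ) ^ ε :=
          mul_le_mul_of_nonneg_right (le_max_left _ _) (by positivity)
  · have h1 : (WF X u v).card ≤ X := by
      unfold WF
      refine (Finset.card_filter_le _ _).trans ?_
      rw [Nat.card_Icc]
      omega
    have h2 : ((WF X u v).card : ℝ) ≤ X := by exact_mod_cast h1
    calc ((WF X u v).card : ℝ) ≤ X := h2
      _ ≤ X0 := (not_le.1 hbig).le
      _ ≤ max Cs X0 := le_max_right _ _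
      _ = max Cs X0 * 1 := by ring
      _ ≤ max Cs X0 * (X : ℝ) ^ ε := by
          apply mul_le_mul_of_nonneg_left hXe
          exact le_max_of_le_left (by linarith)

end Pool.MP_f7abb8_nt.Cnt18
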